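import Pool.Agent.Lib.MP_361a6f_ag.FL.HL.Defs
import Pool.Agent.Lib.MP_361a6f_ag.FL.O.HullS35
import Pool.Agent.Lib.MP_361a6f_ag.FL.B.MainL

/-!
# Half law, row R7a: the abstract half law
-/

open Filter Topology MeasureTheory

set_option autoImplicit false
set_option linter.unusedSectionVars false

namespace Pool.Agent.Lib.MP_361a6f_ag.FL

namespace HL

/-- the numbers of a signature are unique -/
private theorem sgU {E : Type*} [AddCommGroup E] [Module ℝ E] {f : E → ℝ} {V : Submodule ℝ E}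
    {p q p' q' : ℕ} (h : Sig f V p q) (h' : Sig f V p' q') : p = p' ∧ q = q' := by
  obtain ⟨U, hU, hU', hU''⟩ := h.pos
  obtain ⟨U₁, hU₁, hU₁', hU₁''⟩ := h'.pos
  obtain ⟨V₁, hV, hV', hV''⟩ := h.neg
  obtain ⟨V₂, hV₁, hV₁', hV₁''⟩ := h'.neg
  have a1 := h'.pos_le U hU hU'
  have a2 := h.pos_le U₁ hU₁ hU₁'
  have a3 := h'.neg_le V₁ hV hV'
  have a4 := h.neg_le V₂ hV₁ hV₁'
  omega

section trace

variable {I Λ β : Type} [Fintype I] [DecidableEq I] [DecidableEq Λ] [Fintype β] {lb : β → ℕ}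
  {D : Dat I Λ} {b : Tup I lb}

/-- the trace is a continuous function on the compact group -/
theorem cont_tr (H : HMb D b) (k : Matrix I I ℂ) (L : ℕ) (p : Ten I L →ₗ[ℂ] Ten I L) :
    Continuous fun x => LinearMap.trace ℂ (Ten I L) (O.gLin (k * H.mat x) L ∘ₗ p) := by
  have h1 : ∀ x, LinearMap.trace ℂ (Ten I L) (O.gLin (k * H.mat x) L ∘ₗ p) =
      ∑ w : Fin L → I, gT (k * H.mat x) (p (Pi.single w 1)) w := by
    intro x
    rw [OL.tr_eq]
    refine Finset.sum_congr rfl fun w _ => ?_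
    rw [LinearMap.comp_apply, O.gLin_apply]
  simp only [h1]
  refine continuous_finsetSum _ fun w _ => ?_
  exact (continuous_apply w).comp (alg1.gT_cont.comp
    ((continuous_const.mul H.cont_mat).prodMk continuous_const))

theorem int_tr (H : HMb D b) (k : Matrix I I ℂ) (L : ℕ) (p : Ten I L →ₗ[ℂ] Ten I L) :
    Integrable (fun x => LinearMap.trace ℂ (Ten I L) (O.gLin (k * H.mat x) L ∘ₗ p)) H.μ :=
  (cont_tr H k L p).integrable_of_hasCompactSupport (HasCompactSupport.of_compactSpace _)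

end trace

/-- the data of a level exist -/
theorem levD {I Λ : Type} [Fintype I] [DecidableEq I] [DecidableEq Λ] {D : Dat I Λ}
    {At : (L : ℕ) → Ten I L → Prop} (S : ASys D At) (m : ℕ) :
    ∃ (β : Type) (_ : Fintype β) (lb : β → ℕ) (b : Tup I lb) (H : HMb D b)
      (g : ℕ → Matrix I I ℂ) (k : Matrix I I ℂ), LevData D At m H g k := by
  have hvol : VolbStatement := volb alg1
  have hpha : PhabStatement := phab alg1 (tanb alg1)
  have havg : AvgbStatement := avgb mainFfb alg1 alg2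
  exact LevO.lev alg1 alg2 (algB alg1 alg2) cptbH (minb alg1) (l1b alg1 hvol hpha havg)
    (l2b alg1 hvol hpha havg) S m

/-- **Row R7a.** -/
theorem abs (tr : TrStatement) (sg : SigStatement) : AbsStatement := by
  intro I Λ _ _ _ D At S₀ S _ hS ho hpi p q g hg hsig
  obtain ⟨β, _, lb, b, H, gj, k, hL⟩ := levD S₀ (2 * g)
  obtain ⟨w, hw, hs, he⟩ := Hull35.hull_core S hS H hL.K ho hg
  refine ⟨w, hw, hs, fun t => ?_⟩
  have h1 : ∀ L ∈ Finset.range (2 * g + 1), (((p L : ℝ) - q L : ℝ) : ℂ) =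
      ∫ x, LinearMap.trace ℂ (Ten I L) (O.gLin (k * H.mat x) L ∘ₗ piT S L) ∂H.μ := by
    intro L hLL
    have hLL' : L ≤ 2 * g := by
      have := Finset.mem_range.1 hLL
      omega
    obtain ⟨p', q', h2, h3⟩ := sg S₀ S hS hpi hL L hLL'
    obtain ⟨e1, e2⟩ := sgU (hsig L hLL') h2
    rw [e1, e2, ← h3]
    push_cast
    rfl
  have h5 : ((∑ L ∈ Finset.range (2 * g + 1), ((p L : ℝ) - q L) * t ^ L : ℝ) : ℂ) =
      ∫ x, (1 + (t : ℂ) • (k * H.mat x).submatrix (Subtype.val : {i // S i} → I)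
        (Subtype.val : {i // S i} → I)).det ∂H.μ := by
    have h6 : ∀ x, (1 + (t : ℂ) • (k * H.mat x).submatrix (Subtype.val : {i // S i} → I)
        (Subtype.val : {i // S i} → I)).det = ∑ L ∈ Finset.range (2 * g + 1),
          (t : ℂ) ^ L * LinearMap.trace ℂ (Ten I L) (O.gLin (k * H.mat x) L ∘ₗ piT S L) :=
      fun x => (tr S (k * H.mat x) (t : ℂ) (2 * g) hg.le).symm
    simp only [h6]
    rw [integral_finsetSum _ fun L _ => (int_tr H k L (piT S L)).const_mul _, Complex.ofReal_sum]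
    refine Finset.sum_congr rfl fun L hLL => ?_
    rw [integral_const_mul, ← h1 L hLL]
    push_cast
    ring
  have h7 := h5.trans (he (t : ℂ))
  have h8 : ((∑ i ∈ Finset.range (g + 1), w i * ((1 + t) ^ (2 * i) * (1 - t) ^ (2 * (g - i))) :
      ℝ) : ℂ) = ∑ j ∈ Finset.range (g + 1),
        (w j : ℂ) * ((1 + (t : ℂ)) ^ (2 * j) * (1 - (t : ℂ)) ^ (2 * (g - j))) := by
    push_cast
    rfl
  rw [← h8] at h7
  exact_mod_cast h7

end HL

end Pool.Agent.Lib.MP_361a6f_ag.FL
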