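import Pool.Agent.Lib.MP_361a6f_ag.FL.HL.Defs
import Pool.Agent.Lib.MP_361a6f_ag.FL.O.SigP

/-!
# Half law, row R4: the signature on the antisymmetric elements at a level
-/

open Filter Topology MeasureTheory Module

set_option autoImplicit false
set_option linter.unusedSectionVars false

namespace Pool.Agent.Lib.MP_361a6f_ag.FL

namespace HL

open OL OSig

/-- the projector preserves the real span -/
theorem piT_RA {I : Type} [Fintype I] [DecidableEq I] {At : (L : ℕ) → Ten I L → Prop}
    (S : I → Prop) [DecidablePred S] (h : ∀ (L : ℕ) (u : Ten I L), At L u → At L (piT S L u))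
    {L : ℕ} {u : Ten I L} (hu : u ∈ RA At L) : piT S L u ∈ RA At L := by
  unfold RA at hu
  induction hu using Submodule.span_induction with
  | mem x hx => exact Submodule.subset_span (h L x hx)
  | zero => rw [map_zero]; exact zero_mem _
  | add x y _ _ hx hy => rw [map_add]; exact add_mem hx hy
  | smul r x _ hx =>
    rw [Qps.real_smul, map_smul, ← Qps.real_smul]
    exact Submodule.smul_mem _ r hx

/-- **Row R4.** -/
theorem sig (a1 : Alg1) : SigStatement := by
  intro I Λ β _ _ _ _ lb D At S P _ hP hAt b H m g k L l hl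
  have hp : Prj D At (piT P l) :=
    ⟨fun v => piT_idem P v, fun x hx v => piT_gT_G P hx hP v, fun u hu => piT_RA P hAt hu⟩
  obtain ⟨p, q, hpq, _, h2⟩ := exists_isSigP L a1 hl hp
  have hgL : ∀ x : Matrix I I ℂ, O.gLin x l = gL a1 l x := fun x =>
    LinearMap.ext fun v => by rw [O.gLin_apply, gL_apply]
  have hAA : RP At (piT P l) = AA At P l := by
    ext u
    constructor
    · rintro ⟨h1, h3⟩
      exact ⟨h1, ⟨u, h3⟩⟩
    · rintro ⟨h1, v, hv⟩
      refine ⟨h1, ?_⟩
      rw [← hv]
      exact piT_idem P v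
  simp only [hgL]
  refine ⟨p, q, ⟨?_, ?_, ?_, ?_⟩, h2⟩
  · rw [← hAA]; exact hpq.pos
  · rw [← hAA]; exact hpq.pos_le
  · rw [← hAA]; exact hpq.neg
  · rw [← hAA]; exact hpq.neg_le

end HL

end Pool.Agent.Lib.MP_361a6f_ag.FL
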