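import Pool.Agent.Lib.MP_361a6f_ag.FL.HL.Defs

/-!
# Half law, row R2: the sum of the traces is a determinant
-/

open Polynomial

set_option autoImplicit false

namespace Pool.Agent.Lib.MP_361a6f_ag.FL.HL.Tr74

section minors

variable {n : Type} [Fintype n] [DecidableEq n]

theorem card_image_eq {L : ℕ} {T : Finset n} (hT : T.card = L) :
    (Finset.univ.filter fun w : Fin L → n => Finset.univ.image w = T).card = L.factorial := by
  have e1 : {w : Fin L → n // Finset.univ.image w = T} ≃ (Fin L ≃ T) :=
    { toFun := fun w => Equiv.ofBijective (fun i => ⟨w.1 i, (Finset.ext_iff.1 w.2 (w.1 i)).1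
          (Finset.mem_image_of_mem _ (Finset.mem_univ i))⟩) (by
          have hs : Function.Surjective (fun i => (⟨w.1 i, (Finset.ext_iff.1 w.2 (w.1 i)).1
              (Finset.mem_image_of_mem _ (Finset.mem_univ i))⟩ : T)) := by
            rintro ⟨x, hx⟩
            have hx' := (Finset.ext_iff.1 w.2 x).2 hx
            rw [Finset.mem_image] at hx'
            obtain ⟨i, -, hi⟩ := hx'
            exact ⟨i, Subtype.ext hi⟩
          exact (Fintype.bijective_iff_surjective_and_card _).2 ⟨hs, by
            rw [Fintype.card_fin, Fintype.card_coe, hT]⟩)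
      invFun := fun e => ⟨fun i => (e i : n), by
          ext x
          rw [Finset.mem_image]
          constructor
          · rintro ⟨i, -, rfl⟩
            exact (e i).2
          · intro hx
            exact ⟨e.symm ⟨x, hx⟩, Finset.mem_univ _, by rw [Equiv.apply_symm_apply]⟩⟩
      left_inv := fun w => Subtype.ext rfl
      right_inv := fun e => Equiv.ext fun i => Subtype.ext rfl }
  rw [← Fintype.card_subtype, Fintype.card_congr e1,
    Fintype.card_equiv (Fintype.equivOfCardEq (by rw [Fintype.card_fin, Fintype.card_coe, hT])),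
    Fintype.card_fin]

theorem sum_minors (M : Matrix n n ℂ) (L : ℕ) :
    ((L.factorial : ℂ))⁻¹ * ∑ w : Fin L → n, (M.submatrix w w).det =
      ∑ T ∈ Finset.univ.powersetCard L,
        (M.submatrix (Subtype.val : T → n) (Subtype.val : T → n)).det := by
  have h1 : ∑ w : Fin L → n, (M.submatrix w w).det = ∑ T ∈ Finset.univ.powersetCard L,
      ∑ w ∈ Finset.univ.filter fun w : Fin L → n => Finset.univ.image w = T,
        (M.submatrix w w).det := by
    rw [Finset.sum_comm' (t' := Finset.univ)
      (s' := fun w : Fin L → n => (Finset.univ.powersetCard L).filter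
        fun T => Finset.univ.image w = T)]
    · refine Finset.sum_congr rfl fun w _ => ?_
      by_cases hw : Function.Injective w
      · have h2 : (Finset.univ.powersetCard L).filter (fun T => Finset.univ.image w = T) =
            {Finset.univ.image w} := by
          ext T
          rw [Finset.mem_filter, Finset.mem_powersetCard, Finset.mem_singleton]
          constructor
          · rintro ⟨-, h⟩
            exact h.symm
          · rintro rfl
            refine ⟨⟨Finset.subset_univ _, ?_⟩, rfl⟩
            rw [Finset.card_image_of_injective _ hw, Finset.card_univ, Fintype.card_fin]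
        rw [h2, Finset.sum_singleton]
      · have h0 : (M.submatrix w w).det = 0 := by
          rw [Function.Injective] at hw
          push Not at hw
          obtain ⟨i, j, hij, hne⟩ := hw
          refine Matrix.det_zero_of_row_eq hne ?_
          funext k
          rw [Matrix.submatrix_apply, Matrix.submatrix_apply, hij]
        rw [h0, Finset.sum_const_zero]
    · intro T w
      simp only [Finset.mem_filter, Finset.mem_univ, true_and, and_true]
  have h2 : ∀ T ∈ Finset.univ.powersetCard L,
      ∑ w ∈ Finset.univ.filter (fun w : Fin L → n => Finset.univ.image w = T),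
        (M.submatrix w w).det =
      (L.factorial : ℂ) * (M.submatrix (Subtype.val : T → n) (Subtype.val : T → n)).det := by
    intro T hT
    rw [Finset.mem_powersetCard] at hT
    have h3 : ∀ w ∈ Finset.univ.filter (fun w : Fin L → n => Finset.univ.image w = T),
        (M.submatrix w w).det =
          (M.submatrix (Subtype.val : T → n) (Subtype.val : T → n)).det := by
      intro w hw
      rw [Finset.mem_filter] at hw
      have hm : ∀ i, w i ∈ T := fun i => by
        rw [← hw.2]
        exact Finset.mem_image_of_mem _ (Finset.mem_univ i)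
      have hs : Function.Surjective (fun i => (⟨w i, hm i⟩ : T)) := by
        rintro ⟨x, hx⟩
        rw [← hw.2, Finset.mem_image] at hx
        obtain ⟨i, -, hi⟩ := hx
        exact ⟨i, Subtype.ext hi⟩
      have hb := (Fintype.bijective_iff_surjective_and_card
        (fun i => (⟨w i, hm i⟩ : T))).2 ⟨hs, by rw [Fintype.card_fin, Fintype.card_coe, hT.2]⟩
      rw [← Matrix.det_submatrix_equiv_self (Equiv.ofBijective _ hb)
        (M.submatrix (Subtype.val : T → n) (Subtype.val : T → n))]
      rfl
    rw [Finset.sum_congr rfl h3, Finset.sum_const, card_image_eq hT.2, nsmul_eq_mul]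
  rw [h1, Finset.sum_congr rfl h2, ← Finset.mul_sum, ← mul_assoc,
    inv_mul_cancel₀ (by exact_mod_cast L.factorial_ne_zero), one_mul]

theorem det_sum (M : Matrix n n ℂ) (t : ℂ) (N : ℕ) (hN : Fintype.card n ≤ N) :
    ∑ L ∈ Finset.range (N + 1), t ^ L * (((L.factorial : ℂ))⁻¹ *
      ∑ w : Fin L → n, (M.submatrix w w).det) = (1 + t • M).det := by
  have h1 : (1 + t • M).det = (Matrix.det (1 + (X : ℂ[X]) • M.map C)).eval t := by
    rw [← Polynomial.coe_evalRingHom, RingHom.map_det]
    congr 1
    ext i j
    simp only [RingHom.mapMatrix_apply, Matrix.map_apply, Matrix.add_apply, Matrix.smul_apply,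
      smul_eq_mul, Polynomial.coe_evalRingHom, Polynomial.eval_add, Polynomial.eval_mul,
      Polynomial.eval_X, Polynomial.eval_C, Matrix.one_apply]
    split_ifs <;> simp
  have h2 : (Matrix.det (1 + (X : ℂ[X]) • M.map C)).natDegree < N + 1 := by
    have h3 := Polynomial.natDegree_det_X_add_C_le M (1 : Matrix n n ℂ)
    have h4 : (X : ℂ[X]) • M.map C + (1 : Matrix n n ℂ).map C = 1 + (X : ℂ[X]) • M.map C := by
      rw [add_comm]
      congr 1
      exact Matrix.map_one _ C_0 C_1
    rw [h4] at h3
    omega
  rw [h1, Polynomial.eval_eq_sum_range' h2]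
  refine Finset.sum_congr rfl fun L _ => ?_
  rw [Matrix.coeff_det_one_add_X_smul_eq_sum_minors, sum_minors, mul_comm]

end minors

theorem trace_piT {I : Type} [Fintype I] [DecidableEq I] (S : I → Prop) [DecidablePred S]
    (g : Matrix I I ℂ) (L : ℕ) :
    LinearMap.trace ℂ (Ten I L) (O.gLin g L ∘ₗ piT S L) = ((L.factorial : ℂ))⁻¹ *
      ∑ w : Fin L → {i // S i}, ((g.submatrix (Subtype.val : {i // S i} → I)
        (Subtype.val : {i // S i} → I)).submatrix w w).det := by
  rw [LinearMap.trace_eq_matrix_trace ℂ (Pi.basisFun ℂ (Fin L → I)), Matrix.trace]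
  have h1 : ∀ w : Fin L → I, (LinearMap.toMatrix (Pi.basisFun ℂ (Fin L → I))
      (Pi.basisFun ℂ (Fin L → I)) (O.gLin g L ∘ₗ piT S L)).diag w =
      ∑ w' : Fin L → I, (∏ i, g (w i) (w' i)) * (if ∀ i, S (w' i) then
        ((L.factorial : ℂ))⁻¹ * ∑ σ : Equiv.Perm (Fin L), ((Equiv.Perm.sign σ : ℤ) : ℂ) *
          (if w = w' ∘ σ then 1 else 0) else 0) := by
    intro w
    rw [Matrix.diag_apply, LinearMap.toMatrix_apply, Pi.basisFun_repr, LinearMap.comp_apply,
      O.gLin_apply, Pi.basisFun_apply]
    change ∑ w', (∏ i, g (w i) (w' i)) * piT S L (Pi.single w 1) w' = _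
    refine Finset.sum_congr rfl fun w' _ => ?_
    rw [piT_apply]
    congr 1
    split_ifs
    · congr 1
      refine Finset.sum_congr rfl fun σ _ => ?_
      rw [Pi.single_apply]
      congr 1
      by_cases h : w' ∘ σ = w
      · rw [if_pos h, if_pos h.symm]
      · rw [if_neg h, if_neg (Ne.symm h)]
    · rfl
  rw [Finset.sum_congr rfl fun w _ => h1 w, Finset.sum_comm]
  have h2 : ∀ w' : Fin L → I, ∑ w : Fin L → I, (∏ i, g (w i) (w' i)) *
      (if ∀ i, S (w' i) then ((L.factorial : ℂ))⁻¹ * ∑ σ : Equiv.Perm (Fin L),
        ((Equiv.Perm.sign σ : ℤ) : ℂ) * (if w = w' ∘ σ then 1 else 0) else 0) =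
      if ∀ i, S (w' i) then ((L.factorial : ℂ))⁻¹ * (g.submatrix w' w').det else 0 := by
    intro w'
    by_cases hS : ∀ i, S (w' i)
    · simp only [if_pos hS]
      rw [Matrix.det_apply', Finset.mul_sum]
      simp only [Finset.mul_sum]
      rw [Finset.sum_comm]
      refine Finset.sum_congr rfl fun σ _ => ?_
      rw [Finset.sum_eq_single (w' ∘ σ)]
      · rw [if_pos rfl, mul_one]
        simp only [Matrix.submatrix_apply, Function.comp_apply]
        ring
      · intro w _ hw
        rw [if_neg hw, mul_zero, mul_zero, mul_zero]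
      · intro h
        exact absurd (Finset.mem_univ _) h
    · simp only [if_neg hS, mul_zero, Finset.sum_const_zero]
  rw [Finset.sum_congr rfl fun w' _ => h2 w', Finset.mul_sum, ← Finset.sum_filter]
  refine (Finset.sum_bij (fun (w : Fin L → {i // S i}) _ => fun i => ((w i : {i // S i}) : I))
    ?_ ?_ ?_ ?_).symm
  · intro w _
    rw [Finset.mem_filter]
    exact ⟨Finset.mem_univ _, fun i => (w i).2⟩
  · intro w _ w' _ h
    funext i
    exact Subtype.ext (congrFun h i)
  · intro w hw
    rw [Finset.mem_filter] at hw
    exact ⟨fun i => ⟨w i, hw.2 i⟩, Finset.mem_univ _, rfl⟩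
  · intro w _
    rfl

/-- **Row R2.** -/
theorem tr : TrStatement := by
  intro I _ _ S _ g t N hN
  rw [← det_sum _ t N hN]
  exact Finset.sum_congr rfl fun L _ => by rw [trace_piT]

end Pool.Agent.Lib.MP_361a6f_ag.FL.HL.Tr74
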