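import Pool.Agent.Lib.MP_361a6f_ag.FL.HL.Abs
import Pool.Agent.Lib.MP_361a6f_ag.FL.HL.SigP
import Pool.Agent.Lib.MP_361a6f_ag.FL.HL.Tr74

/-!
# Half law: the abstract row
-/

namespace Pool.Agent.Lib.MP_361a6f_ag.FL

namespace HL

/-- the abstract half law -/
theorem absRow : AbsStatement := abs Tr74.tr (sig alg1)

end HL

end Pool.Agent.Lib.MP_361a6f_ag.FL
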