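import Pool.Agent.Lib.MP_361a6f_ag.FL.HL.Main
import Pool.Agent.Lib.MP_361a6f_ag.FL.B.HopF

/-!
# The half law for abelian varieties: translation and final theorem
-/

open CategoryTheory AlgebraicGeometry MonoidalCategory CartesianMonoidalCategory

universe u v w

set_option autoImplicit false

namespace Pool.Agent.Lib.MP_361a6f_ag.FL

open Pool.Agent.Lib.MP_361a6f_ag.H3 Pool.Agent.Lib.MP_361a6f_ag.SQ
  Pool.Agent.Lib.MP_361a6f_ag.PP

namespace HL

/-! ### Existence of the signature -/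

theorem exists_max {E : Type*} [AddCommGroup E] [Module ℝ E] [Module.Finite ℝ E] (f : E → ℝ)
    (V : Submodule ℝ E) : ∃ p : ℕ,
      (∃ U ≤ V, (∀ u ∈ U, u ≠ 0 → 0 < f u) ∧ Module.finrank ℝ U = p) ∧
      ∀ U ≤ V, (∀ u ∈ U, u ≠ 0 → 0 < f u) → Module.finrank ℝ U ≤ p := by
  obtain ⟨S, hS⟩ : ∃ S : Set ℕ, S = {p | ∃ U ≤ V, (∀ u ∈ U, u ≠ 0 → 0 < f u) ∧
    Module.finrank ℝ U = p} := ⟨_, rfl⟩
  have hne : S.Nonempty := by
    refine ⟨0, ?_⟩
    rw [hS]
    exact ⟨⊥, bot_le, fun u hu h0 => absurd ((Submodule.mem_bot ℝ).1 hu) h0, finrank_bot ℝ E⟩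
  have hbd : BddAbove S := by
    refine ⟨Module.finrank ℝ E, ?_⟩
    rw [hS]
    rintro _ ⟨U, -, -, rfl⟩
    exact Submodule.finrank_le U
  refine ⟨sSup S, ?_, fun U hU hp => ?_⟩
  · have h := Nat.sSup_mem hne hbd
    rw [hS] at h ⊢
    exact h
  · refine le_csSup hbd ?_
    rw [hS]
    exact ⟨U, hU, hp, rfl⟩

theorem exists_sig {E : Type*} [AddCommGroup E] [Module ℝ E] [Module.Finite ℝ E] (f : E → ℝ)
    (V : Submodule ℝ E) : ∃ p q : ℕ, Sig f V p q := by
  obtain ⟨p, hp1, hp2⟩ := exists_max f V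
  obtain ⟨q, ⟨U, hU, hU1, hU2⟩, hq2⟩ := exists_max (fun x => - f x) V
  exact ⟨p, q, hp1, hp2, ⟨U, hU, fun u hu h0 => neg_pos.1 (hU1 u hu h0), hU2⟩,
    fun U hU h => hq2 U hU fun u hu h0 => neg_pos.2 (h u hu h0)⟩

/-! ### Reality of Grothendieck's form -/

section real

variable {k : Type u} [Field k] {W : CohomologyData.{u, 0, w} k ℂ} {𝒱 : VarietyClass k}
  (hW : IsWeilCohomology W 𝒱) {X : Sch k} {g : ℕ} (hX : 𝒱.mem X g)

include hW hX in
theorem span_mul {i j : ℕ} {x y : W.coh X}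
    (hx : x ∈ Submodule.span ℝ (W.alg X i : Set (W.coh X)))
    (hy : y ∈ Submodule.span ℝ (W.alg X j : Set (W.coh X))) :
    x * y ∈ Submodule.span ℝ (W.alg X (i + j) : Set (W.coh X)) := by
  induction hx using Submodule.span_induction with
  | mem x hx =>
    induction hy using Submodule.span_induction with
    | mem y hy => exact Submodule.subset_span (hW.mul_alg hX hx hy)
    | zero => rw [mul_zero]; exact zero_mem _
    | add a b _ _ ha hb => rw [mul_add]; exact add_mem ha hb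
    | smul c a _ ha => rw [mul_smul_comm]; exact Submodule.smul_mem _ c ha
  | zero => rw [zero_mul]; exact zero_mem _
  | add a b _ _ ha hb => rw [add_mul]; exact add_mem ha hb
  | smul c a _ ha => rw [smul_mul_assoc]; exact Submodule.smul_mem _ c ha

include hW hX in
theorem tr_real {x : W.coh X} (hx : x ∈ Submodule.span ℝ (W.alg X g : Set (W.coh X))) :
    (W.tr X x).im = 0 := by
  induction hx using Submodule.span_induction with
  | mem x hx =>
    obtain ⟨q, hq⟩ := hW.tr_alg hX hx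
    rw [hq]
    exact Complex.ratCast_im q
  | zero => rw [map_zero, Complex.zero_im]
  | add a b _ _ ha hb => rw [map_add, Complex.add_im, ha, hb, add_zero]
  | smul c a _ ha =>
    have h : W.tr X (c • a) = (c : ℂ) * W.tr X a := by
      rw [← smul_eq_mul, ← map_smul]
      rfl
    rw [h, Complex.im_ofReal_mul, ha, mul_zero]

include hW hX in
theorem Gf_im {ξ : W.coh X} (hξ : ξ ∈ W.alg X 1) {j : ℕ} (hj : 2 * j ≤ g) {x y : W.coh X}
    (hx : x ∈ Submodule.span ℝ (W.alg X j : Set (W.coh X)))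
    (hy : y ∈ Submodule.span ℝ (W.alg X j : Set (W.coh X))) :
    (OStr.Gf W X g ξ j x y).im = 0 := by
  have h1 : ξ ^ (g - 2 * j) * (x * y) ∈ Submodule.span ℝ (W.alg X g : Set (W.coh X)) := by
    have h2 := span_mul hW hX (Submodule.subset_span (hW.pow_alg hX hξ (g - 2 * j)))
      (span_mul hW hX hx hy)
    rwa [show g - 2 * j + (j + j) = g by omega] at h2
  have h3 := tr_real hW hX h1
  rw [OStr.Gf]
  rcases neg_one_pow_eq_or ℂ j with h | h
  · rw [h, one_mul, h3]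
  · rw [h, neg_one_mul, Complex.neg_im, h3, neg_zero]

include hW hX in
/-- the signature in the sense of the statement -/
theorem hasSig_of {ξ : W.coh X} (hξ : ξ ∈ W.alg X 1) {j : ℕ} (hj : 2 * j ≤ g) {p q : ℕ}
    (h : Sig (fun x => (OStr.Gf W X g ξ j x x).re) (OStr.PrR W X g ξ j) p q) :
    HasSig W X g ξ j p q := by
  have hdef : ∀ U : Submodule ℝ (W.coh X), ∀ ε : ℂ, (∀ x ∈ U, x ∈ Submodule.span ℝ
      {z | W.IsAlg X j z}) → (∀ x ∈ U, W.cup (ξ ^ (g - 2 * j + 1)) x = 0) →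
      U ≤ OStr.PrR W X g ξ j := fun U ε h1 h2 x hx => ⟨h1 x hx, h2 x hx⟩
  have him : ∀ U ≤ OStr.PrR W X g ξ j, ∀ x ∈ U, (OStr.Gf W X g ξ j x x).im = 0 :=
    fun U hU x hx => Gf_im hW hX hξ hj (hU hx).1 (hU hx).1
  constructor
  · obtain ⟨U, hU, h1, h2⟩ := h.pos
    refine ⟨U, ⟨fun x hx => (hU hx).1, fun x hx => (hU hx).2, fun x hx h0 =>
      ⟨(OStr.Gf W X g ξ j x x).re, h1 x hx h0, ?_⟩⟩, h2⟩
    rw [one_mul]
    exact Complex.ext rfl ((him U hU x hx).trans (Complex.ofReal_im _).symm)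
  · intro U hU
    refine h.pos_le U (hdef U 1 hU.real hU.prim) fun x hx h0 => ?_
    obtain ⟨t, ht, h1⟩ := hU.pos x hx h0
    rw [one_mul] at h1
    have h2 : OStr.Gf W X g ξ j x x = (t : ℂ) := h1
    change 0 < (OStr.Gf W X g ξ j x x).re
    rw [h2, Complex.ofReal_re]
    exact ht
  · obtain ⟨U, hU, h1, h2⟩ := h.neg
    refine ⟨U, ⟨fun x hx => (hU hx).1, fun x hx => (hU hx).2, fun x hx h0 =>
      ⟨- (OStr.Gf W X g ξ j x x).re, neg_pos.2 (h1 x hx h0), ?_⟩⟩, h2⟩
    rw [neg_one_mul, Complex.ofReal_neg]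
    exact congrArg Neg.neg (Complex.ext rfl ((him U hU x hx).trans (Complex.ofReal_im _).symm))
  · intro U hU
    refine h.neg_le U (hdef U 1 hU.real hU.prim) fun x hx h0 => ?_
    obtain ⟨t, ht, h1⟩ := hU.pos x hx h0
    rw [neg_one_mul] at h1
    have h2 : - OStr.Gf W X g ξ j x x = (t : ℂ) := h1
    change (OStr.Gf W X g ξ j x x).re < 0
    have h3 : - (OStr.Gf W X g ξ j x x).re = t := by
      rw [← Complex.neg_re, h2, Complex.ofReal_re]
    linarith

end real

/-! ### The double sum -/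

theorem sum_even_odd (F : ℕ → ℝ) (g : ℕ) : ∑ L ∈ Finset.range (2 * g + 1), F L =
    ∑ l ∈ Finset.range (g + 1), F (2 * l) + ∑ l ∈ Finset.range g, F (2 * l + 1) := by
  induction g with
  | zero => simp
  | succ g ih =>
    rw [show 2 * (g + 1) + 1 = (2 * g + 1) + 1 + 1 by ring, Finset.sum_range_succ,
      Finset.sum_range_succ, ih, Finset.sum_range_succ (fun l => F (2 * l)) (g + 1),
      Finset.sum_range_succ (fun l => F (2 * l + 1)) g, show 2 * (g + 1) = 2 * g + 1 + 1 by ring]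
    ring

theorem sum_box (g : ℕ) (d : ℕ → ℝ) (F : ℕ → ℝ) :
    ∑ l ∈ Finset.range (g + 1), (∑ j ∈ Finset.range (min l (g - l) + 1), d j) * F l =
      ∑ j ∈ Finset.range (g / 2 + 1), d j * ∑ r ∈ Finset.range (g - 2 * j + 1), F (j + r) := by
  have h1 : ∀ l ∈ Finset.range (g + 1),
      (∑ j ∈ Finset.range (min l (g - l) + 1), d j) * F l =
      ∑ j ∈ Finset.range (g / 2 + 1), if j ≤ l ∧ j ≤ g - l then d j * F l else 0 := by
    intro l hl
    rw [Finset.mem_range] at hl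
    rw [← Finset.sum_filter, Finset.sum_mul]
    refine Finset.sum_congr ?_ fun _ _ => rfl
    ext j
    simp only [Finset.mem_range, Finset.mem_filter]
    omega
  rw [Finset.sum_congr rfl h1, Finset.sum_comm]
  refine Finset.sum_congr rfl fun j hj => ?_
  rw [Finset.mem_range] at hj
  rw [← Finset.sum_filter, Finset.mul_sum]
  have h2 : (Finset.range (g + 1)).filter (fun l => j ≤ l ∧ j ≤ g - l) =
      Finset.Ico j (g - j + 1) := by
    ext l
    simp only [Finset.mem_range, Finset.mem_filter, Finset.mem_Ico]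
    omega
  rw [h2, Finset.sum_Ico_eq_sum_range, show g - j + 1 - j = g - 2 * j + 1 by omega]

theorem sum_pL (g : ℕ) (p q : ℕ → ℕ) (t : ℝ) :
    ∑ L ∈ Finset.range (2 * g + 1), ((pL g p L : ℝ) - pL g q L) * t ^ L =
      ∑ j ∈ Finset.range (g / 2 + 1), ((p j : ℝ) - q j) *
        ∑ r ∈ Finset.range (g - 2 * j + 1), t ^ (2 * (j + r)) := by
  rw [sum_even_odd, ← sum_box g (fun j => (p j : ℝ) - q j) (fun l => t ^ (2 * l)),
    Finset.sum_eq_zero (s := Finset.range g), add_zero]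
  · refine Finset.sum_congr rfl fun l _ => ?_
    rw [pL_even, pL_even, pl, pl]
    push_cast
    rw [← Finset.sum_sub_distrib]
  · intro l _
    rw [pL_odd, pL_odd, Nat.cast_zero, sub_zero, zero_mul]

/-! ### The final theorem -/

/-- the half law from its rows -/
theorem halfLaw (hcmp : CmpStatement.{u, w}) (hcnt : CntStatement.{u, w})
    (hstr : StrStatement.{u, w}) (habs : AbsStatement) : HalfLawStatement.{u, w} := by
  intro k _ W 𝒱 hW X g hX hH0 hU ξ hξ
  have hA : AbelianType W X g := abelianType_of_unital hW hX hH0 hU hξ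
  obtain ⟨hL, hΛ⟩ := AbV.main hW hX hA hU hξ
  have hfin : Module.Finite ℂ (W.coh X) := hW.graded.finite hX
  have hfinR : Module.Finite ℝ (W.coh X) := Module.Finite.trans ℂ (W.coh X)
  choose p q hpq using fun j => exists_sig (fun x => (OStr.Gf W X g ξ j x x).re)
    (OStr.PrR W X g ξ j)
  refine ⟨p, q, fun j hj => hasSig_of hW hX hξ.1 hj (hpq j), ?_⟩
  obtain ⟨H, hHX, hHn, hHξ⟩ := gb26 hW (m := 1) (X := fun _ => X) (n := fun _ => g)
    (fun _ => hX) (ξ := fun _ => ξ) (fun _ => hξ.1) (fun _ => hL) (fun _ => hΛ)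
  have hX0 : H.X 0 = X := by rw [hHX]
  have hn0 : H.n 0 = g := by rw [hHn]
  have key : ∀ (X' : Fin 1 → Sch k) (n' : Fin 1 → ℕ) (ξ' : ∀ a, W.coh (X' a)), X' = H.X →
      n' = H.n → HEq ξ' H.ξ → AbelianType W (X' 0) (n' 0) →
      PositiveDivisor W (X' 0) (n' 0) (ξ' 0) →
      (∀ j, 2 * j ≤ n' 0 → Sig (fun x => (OStr.Gf W (X' 0) (n' 0) (ξ' 0) j x x).re)
        (OStr.PrR W (X' 0) (n' 0) (ξ' 0) j) (p j) (q j)) →
      InHull (n' 0) fun t => ∑ L ∈ Finset.range (2 * n' 0 + 1),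
        ((pL (n' 0) p L : ℝ) - pL (n' 0) q L) * t ^ L := by
    intro X' n' ξ' h1 h2 h3 h4 h5 h6
    subst h1 h2
    obtain rfl := eq_of_heq h3
    exact half_host hcmp hcnt hstr habs H h4 h5 p q h6
  obtain ⟨w, hw1, hw2, hw3⟩ := key (fun _ => X) (fun _ => g) (fun _ => ξ) hHX.symm hHn.symm
    hHξ.symm hA hξ fun j _ => hpq j
  refine ⟨w, hw1, hw2, fun t => ?_⟩
  rw [← hw3 t]
  exact (sum_pL g p q t).symm

end HL

end Pool.Agent.Lib.MP_361a6f_ag.FL
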