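import Pool.Agent.Lib.MP_361a6f_ag.FL.HL.Defs
import Pool.Agent.Lib.MP_361a6f_ag.FL.A.Sqr
import Pool.Agent.Lib.MP_361a6f_ag.FL.A.Mul
import Pool.Agent.Lib.MP_361a6f_ag.FL.AtRow

/-!
# Half law, row R5: antisymmetric tensors over `H^1` and algebraic classes
-/

open CategoryTheory AlgebraicGeometry MonoidalCategory CartesianMonoidalCategory

universe u v w

set_option autoImplicit false
set_option linter.unusedSectionVars false

namespace Pool.Agent.Lib.MP_361a6f_ag.FL

open Pool.Agent.Lib.MP_361a6f_ag.H3 Pool.Agent.Lib.MP_361a6f_ag.SQ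
  Pool.Agent.Lib.MP_361a6f_ag.PP

namespace HL

namespace CmpRow

/-! ### Transport of signatures -/

section transport

variable {E F : Type*} [AddCommGroup E] [Module ℝ E] [AddCommGroup F] [Module ℝ F]
  {V : Submodule ℝ E} {V' : Submodule ℝ F}

theorem exists_sub (Φ : V' ≃ₗ[ℝ] V) {U : Submodule ℝ E} (hU : U ≤ V) :
    ∃ U' ≤ V', Module.finrank ℝ U' = Module.finrank ℝ U ∧
      ∀ x ∈ U', ∃ y : V', (y : F) = x ∧ (Φ y : E) ∈ U := by
  refine ⟨((U.comap V.subtype).map (Φ.symm : V →ₗ[ℝ] V')).map V'.subtype, ?_, ?_, ?_⟩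
  · rintro x ⟨y, -, rfl⟩
    exact y.2
  · rw [Submodule.finrank_map_subtype_eq]
    have h1 := LinearEquiv.finrank_map_eq Φ.symm (U.comap V.subtype)
    rw [h1]
    exact (Submodule.comapSubtypeEquivOfLe hU).finrank_eq
  · rintro x ⟨y, ⟨z, hz, rfl⟩, rfl⟩
    refine ⟨Φ.symm z, rfl, ?_⟩
    rw [LinearEquiv.apply_symm_apply]
    exact hz

/-- signatures are transported along an isometry -/
theorem sig_transport {f : E → ℝ} {g : F → ℝ} (Φ : V' ≃ₗ[ℝ] V)
    (h : ∀ x : V', f (Φ x : E) = g (x : F)) {p q : ℕ} (hs : Sig f V p q) : Sig g V' p q := by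
  have h' : ∀ y : V, g (Φ.symm y : F) = f (y : E) := fun y => by
    rw [← h, LinearEquiv.apply_symm_apply]
  obtain ⟨⟨U, hUV, hU, hp⟩, hple, ⟨N, hNV, hN, hq⟩, hqle⟩ := hs
  refine ⟨?_, ?_, ?_, ?_⟩
  · obtain ⟨U', hU'V, hfin, hmem⟩ := exists_sub Φ hUV
    refine ⟨U', hU'V, fun x hx hx0 => ?_, hfin.trans hp⟩
    obtain ⟨y, rfl, hy⟩ := hmem x hx
    rw [← h]
    refine hU _ hy fun h0 => hx0 ?_
    have h1 : Φ y = 0 := Subtype.ext h0
    rw [(LinearEquiv.map_eq_zero_iff Φ).1 h1]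
    rfl
  · intro U' hU' hpos
    obtain ⟨U1, hU1, hfin, hmem⟩ := exists_sub Φ.symm hU'
    rw [← hfin]
    refine hple U1 hU1 fun x hx hx0 => ?_
    obtain ⟨y, rfl, hy⟩ := hmem x hx
    rw [← h']
    refine hpos _ hy fun h0 => hx0 ?_
    have h1 : Φ.symm y = 0 := Subtype.ext h0
    rw [(LinearEquiv.map_eq_zero_iff Φ.symm).1 h1]
    rfl
  · obtain ⟨U', hU'V, hfin, hmem⟩ := exists_sub Φ hNV
    refine ⟨U', hU'V, fun x hx hx0 => ?_, hfin.trans hq⟩
    obtain ⟨y, rfl, hy⟩ := hmem x hx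
    rw [← h]
    refine hN _ hy fun h0 => hx0 ?_
    have h1 : Φ y = 0 := Subtype.ext h0
    rw [(LinearEquiv.map_eq_zero_iff Φ).1 h1]
    rfl
  · intro U' hU' hneg
    obtain ⟨U1, hU1, hfin, hmem⟩ := exists_sub Φ.symm hU'
    rw [← hfin]
    refine hqle U1 hU1 fun x hx hx0 => ?_
    obtain ⟨y, rfl, hy⟩ := hmem x hx
    rw [← h']
    refine hneg _ hy fun h0 => hx0 ?_
    have h1 : Φ.symm y = 0 := Subtype.ext h0
    rw [(LinearEquiv.map_eq_zero_iff Φ.symm).1 h1]
    rfl

end transport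

variable {k : Type u} [Field k] {W : CohomologyData.{u, 0, w} k ℂ} {𝒱 : VarietyClass k} {m : ℕ}
  (H : Host W 𝒱 m) (a : Fin m)

/-- the projection preserves the algebraic tensors -/
theorem piT_at [DecidablePred fun i : H.I => H.D.typ i = (a, 1)] (L : ℕ) (u : Ten H.I L)
    (hu : u ∈ H.At L) : piT (fun i => H.D.typ i = (a, 1)) L u ∈ H.At L := by
  refine piT_mem (D := H.D) (At := fun L u => u ∈ H.At L) (fun i => H.D.typ i = (a, 1))
    (aSys_at (at_ H)) (fun L u hu => ?_) hu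
  have h1 : (fun w : Fin L → H.I => if ∀ i, H.D.typ (w i) = (a, 1) then u w else 0)
      = H.prj a u := by
    funext w
    by_cases hw : H.On1 a w
    · rw [CMP.prj_on H u hw]
      exact if_pos hw
    · rw [CMP.prj_off H u hw]
      exact if_neg hw
  change (fun w : Fin L → H.I => if ∀ i, H.D.typ (w i) = (a, 1) then u w else 0) ∈ H.At L
  rw [h1]
  exact (mulF H).prj_mem a L u hu

/-- the antisymmetric elements of the real span are the real span of the antisymmetric algebraic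
tensors -/
theorem aa_eq [DecidablePred fun i : H.I => H.D.typ i = (a, 1)] (L : ℕ) :
    AA (fun L u => u ∈ H.At L) (fun i => H.D.typ i = (a, 1)) L = CMP.SR H a L := by
  apply le_antisymm
  · rintro u ⟨h1, h2⟩
    obtain ⟨h3, h4⟩ := (mem_range_piT (fun i => H.D.typ i = (a, 1))).1 h2
    rw [← piT_of (fun i => H.D.typ i = (a, 1)) h3 h4]
    have h5 : u ∈ Submodule.span ℝ {u : Ten H.I L | u ∈ H.At L} := h1
    clear h1 h2 h3 h4
    induction h5 using Submodule.span_induction with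
    | mem u hu =>
      exact Submodule.subset_span
        { mem := piT_at H a L u hu
          on := piT_sup (fun i => H.D.typ i = (a, 1)) u
          anti := piT_anti (fun i => H.D.typ i = (a, 1)) u }
    | zero => rw [map_zero]; exact zero_mem _
    | add x y _ _ hx hy => rw [map_add]; exact add_mem hx hy
    | smul r x _ hx =>
      rw [Qps.real_smul, map_smul, ← Qps.real_smul]
      exact Submodule.smul_mem _ r hx
  · refine Submodule.span_le.2 fun u hu => ⟨?_, ?_⟩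
    · exact Submodule.subset_span hu.mem
    · exact (mem_range_piT (fun i => H.D.typ i = (a, 1))).2 ⟨hu.anti, hu.on⟩

/-- the facts on the exterior algebra from a positive divisor -/
theorem extF (hab : AbelianType W (H.X a) (H.n a))
    (hpd : PositiveDivisor W (H.X a) (H.n a) (H.ξ a)) : ExtFacts W (H.X a) := by
  obtain ⟨q, hq, hqt⟩ := hpd.2
  have hqt' : W.tr (H.X a) (H.ξ a ^ H.n a) = (q : ℂ) := hqt
  have hq0 : (q : ℂ) ≠ 0 := by exact_mod_cast hq.ne'
  exact Ext1.extFacts H.hW (H.mem a) hab ⟨_, by rw [hqt']; exact hq0⟩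

end CmpRow

open CmpRow in
/-- Row R5. -/
theorem cmpRow : CmpStatement.{u, w} := by
  intro k _ W 𝒱 m H a hab hpd l p q hs
  obtain ⟨hΦ, -⟩ := anti_isometry AV48.hr mulF at_ alg1 H a hab (extF H a hab hpd) hpd
  obtain ⟨Φ, hΦ⟩ := hΦ l
  rw [aa_eq]
  have hs' : Sig (fun z => (H.psiL a z z).re) (CMP.RC H a l) p q := hs
  exact sig_transport Φ (fun x => by
    change (H.psiL a (Φ x : W.coh (H.X a)) (Φ x)).re = _
    rw [hΦ]) hs'

end HL

end Pool.Agent.Lib.MP_361a6f_ag.FL
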