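import Pool.Agent.Lib.MP_361a6f_ag.FL.HL.Defs
import Pool.Agent.Lib.MP_361a6f_ag.FL.A.Sqr
import Pool.Agent.Lib.MP_361a6f_ag.FL.A.Ext1
import Pool.Agent.Lib.MP_361a6f_ag.FL.A.Mul
import Pool.Agent.Lib.MP_361a6f_ag.FL.AtRow
import Pool.Agent.Lib.MP_361a6f_ag.AV48.Hr

/-!
# Half law, row CNT: the letters of degree one, odd lengths, and the projector
-/

open CategoryTheory AlgebraicGeometry MonoidalCategory CartesianMonoidalCategory

universe u v w

set_option autoImplicit false
set_option linter.unusedSectionVars false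

namespace Pool.Agent.Lib.MP_361a6f_ag.FL

open Pool.Agent.Lib.MP_361a6f_ag.H3 Pool.Agent.Lib.MP_361a6f_ag.SQ
  Pool.Agent.Lib.MP_361a6f_ag.PP

namespace HL

variable {k : Type u} [Field k] {m : ℕ} {W : CohomologyData.{u, 0, w} k ℂ} {𝒱 : VarietyClass k}
  (H : Host W 𝒱 m) (a : Fin m)

/-- the projector preserves the algebraic tensors -/
theorem piT_at (mf : H.MulFacts) (hA : H.AtFacts) (L : ℕ) (u : Ten H.I L) (hu : u ∈ H.At L) :
    piT (fun i => H.D.typ i = (a, 1)) L u ∈ H.At L := by
  refine piT_mem (fun i => H.D.typ i = (a, 1)) (aSys_at hA) (fun L u hu => ?_) hu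
  have h1 := mf.prj_mem a L u hu
  have h2 : (fun w : Fin L → H.I => if ∀ i, H.D.typ (w i) = (a, 1) then u w else 0)
      = H.prj a u := by
    funext w
    unfold Host.prj Host.On1
    by_cases h : ∀ i, H.D.typ (w i) = (a, 1)
    · rw [if_pos h, if_pos h]
    · rw [if_neg h, if_neg h]
  rw [h2]
  exact h1

/-- the antisymmetric elements of the real span are in the real span of the antisymmetric
elements -/
theorem AA_le_SR (mf : H.MulFacts) (hA : H.AtFacts) (L : ℕ) :
    AA (fun L u => u ∈ H.At L) (fun i => H.D.typ i = (a, 1)) L ≤ CMP.SR H a L := by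
  rintro u ⟨hu, hu'⟩
  have h0 : piT (fun i => H.D.typ i = (a, 1)) L u = u := by
    obtain ⟨v, hv⟩ := hu'
    rw [← hv, piT_idem]
  rw [← h0]
  clear h0 hu'
  change u ∈ Submodule.span ℝ {u | u ∈ H.At L} at hu
  induction hu using Submodule.span_induction with
  | mem u hu =>
    refine Submodule.subset_span ⟨piT_at H a mf hA L u hu, fun w hw => ?_, piT_anti _ u⟩
    exact piT_sup _ u w hw
  | zero => rw [map_zero]; exact zero_mem _
  | add u v _ _ hu hv => rw [map_add]; exact add_mem hu hv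
  | smul r u _ hu =>
    rw [Qps.real_smul, map_smul, ← Qps.real_smul]
    exact Submodule.smul_mem _ r hu

/-- the number of the letters of degree one -/
theorem card_letters (ge : H.GeFacts) :
    Fintype.card {i // H.D.typ i = (a, 1)} = Module.finrank ℂ (W.gr (H.X a) 1) := by
  classical
  have hmem : ∀ i : {x : H.I | H.D.typ x = (a, 1)}, H.e a i ∈ W.gr (H.X a) 1 := by
    intro i
    have h1 := H.e_gr a i
    have h2 : H.D.typ (i : H.I) = (a, 1) := i.2
    rw [h2] at h1
    exact h1
  have hspan : Submodule.span ℂ (Set.range fun i : {x : H.I | H.D.typ x = (a, 1)} => H.e a i)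
      = W.gr (H.X a) 1 := by
    apply le_antisymm
    · rw [Submodule.span_le]
      rintro _ ⟨i, rfl⟩
      exact hmem i
    · intro v hv
      obtain ⟨c, hc, hc'⟩ := CMP.expand_one ge hv
      rw [hc']
      refine Submodule.sum_mem _ fun x _ => ?_
      by_cases h : H.D.typ x = (a, 1)
      · exact Submodule.smul_mem _ _ (Submodule.subset_span ⟨⟨x, h⟩, rfl⟩)
      · rw [hc x h, zero_smul]
        exact zero_mem _
  rw [← hspan]
  exact (finrank_span_eq_card (CMP.lin_indep (H := H) (a := a))).symm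

end HL

/-- Row CNT. -/
theorem HL.cnt (ext : ExtStatement.{u, w}) (hm : MulStatement.{u, w})
    (hAt : AtStatement.{u, w}) : HL.CntStatement.{u, w} := by
  intro k _ W 𝒱 m H a hab hpd
  have hE : ExtFacts W (H.X a) := by
    refine ext H.hW (H.mem a) hab ⟨(H.ξ a) ^ (H.n a), fun h0 => ?_⟩
    obtain ⟨r, hr, h⟩ := hpd.2
    have h1 := h.symm.trans h0
    rw [Rat.cast_eq_zero] at h1
    exact hr.ne' h1
  refine ⟨fun l => ?_, HL.piT_at H a (hm H) (hAt H), ?_⟩
  · rw [eq_bot_iff]
    intro u hu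
    exact (Submodule.mem_bot ℝ).2 (CMP.SR_odd alg1 (hAt H) (hm H) hE (by omega) u
      (HL.AA_le_SR H a (hm H) (hAt H) _ hu))
  · rw [HL.card_letters H a (ge H)]
    exact hab.rank

/-- Row CNT, all hypotheses discharged. -/
theorem HL.cntRow : HL.CntStatement.{u, w} := HL.cnt Ext1.extFacts mulF at_

end Pool.Agent.Lib.MP_361a6f_ag.FL
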