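import Pool.Agent.Lib.MP_361a6f_ag.FL.HL.Pi
import Pool.Agent.Lib.MP_361a6f_ag.FL.O.Defs
import Pool.Agent.Lib.MP_361a6f_ag.FL.O.Dec
import Pool.Agent.Lib.MP_361a6f_ag.FL.O.Lev
import Pool.Agent.Lib.MP_361a6f_ag.FL.B.AbV

/-!
# Half law: statements of the rows
-/

open CategoryTheory AlgebraicGeometry MonoidalCategory CartesianMonoidalCategory
open Filter Topology MeasureTheory

universe u v w

set_option autoImplicit false

namespace Pool.Agent.Lib.MP_361a6f_ag.FL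

open Pool.Agent.Lib.MP_361a6f_ag.H3 Pool.Agent.Lib.MP_361a6f_ag.SQ
  Pool.Agent.Lib.MP_361a6f_ag.PP

namespace HL

/-- `p` is the largest dimension of a subspace of `V` on which `f` is positive outside `0`, and
`q` the largest dimension of a subspace of `V` on which `f` is negative outside `0` -/
structure Sig {E : Type*} [AddCommGroup E] [Module ℝ E] (f : E → ℝ) (V : Submodule ℝ E)
    (p q : ℕ) : Prop where
  pos : ∃ U ≤ V, (∀ u ∈ U, u ≠ 0 → 0 < f u) ∧ Module.finrank ℝ U = p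
  pos_le : ∀ U ≤ V, (∀ u ∈ U, u ≠ 0 → 0 < f u) → Module.finrank ℝ U ≤ p
  neg : ∃ U ≤ V, (∀ u ∈ U, u ≠ 0 → f u < 0) ∧ Module.finrank ℝ U = q
  neg_le : ∀ U ≤ V, (∀ u ∈ U, u ≠ 0 → f u < 0) → Module.finrank ℝ U ≤ q

/-- the antisymmetric elements, on the words with all letters in `S`, of the real span of the
members of length `L` -/
noncomputable def AA {I : Type} [Fintype I] [DecidableEq I] (At : (L : ℕ) → Ten I L → Prop)
    (S : I → Prop) [DecidablePred S] (L : ℕ) : Submodule ℝ (Ten I L) :=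
  OL.RA At L ⊓ (LinearMap.range (piT S L)).restrictScalars ℝ

/-- Row R2 (12): the sum of the traces is a determinant. -/
def TrStatement : Prop :=
  ∀ {I : Type} [Fintype I] [DecidableEq I] (S : I → Prop) [DecidablePred S] (g : Matrix I I ℂ)
    (t : ℂ) (N : ℕ) (_ : Fintype.card {i // S i} ≤ N),
    ∑ L ∈ Finset.range (N + 1), t ^ L * LinearMap.trace ℂ (Ten I L) (O.gLin g L ∘ₗ piT S L) =
      (1 + t • g.submatrix (Subtype.val : {i // S i} → I) (Subtype.val : {i // S i} → I)).det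

/-- Row R3 (35): the determinant for a unitary symplectic matrix. -/
def DetStatement : Prop :=
  ∀ {n : Type} [Fintype n] [DecidableEq n] {Ps y : Matrix n n ℂ} (_ : Ps.transpose = -Ps)
    (_ : Ps * Ps.conjTranspose = 1) (_ : ∀ i j, starRingEnd ℂ (Ps i j) = Ps i j)
    (_ : y.conjTranspose * y = 1) (_ : y.transpose * Ps * y = Ps) {g : ℕ}
    (_ : Fintype.card n = 2 * g), ∃ c : Fin g → ℝ, (∀ i, 0 ≤ c i ∧ c i ≤ 1) ∧
      ∀ t : ℝ, (1 + (t : ℂ) • y).det =
        ((∏ i, (c i * (1 + t) ^ 2 + (1 - c i) * (1 - t) ^ 2) : ℝ) : ℂ)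

/-- Row R3b (17): polynomials in the convex hull of the polynomials
`(1 + t)^(2i) (1 - t)^(2g - 2i)`. -/
def InHull (g : ℕ) (f : ℝ → ℝ) : Prop :=
  ∃ w : ℕ → ℝ, (∀ i, 0 ≤ w i) ∧ ∑ i ∈ Finset.range (g + 1), w i = 1 ∧
    ∀ t : ℝ, f t = ∑ i ∈ Finset.range (g + 1), w i * ((1 + t) ^ (2 * i) * (1 - t) ^ (2 * (g - i)))

/-- Row R3b (17): products, and averages. -/
def HullStatement : Prop :=
  (∀ (g : ℕ) (c : Fin g → ℝ) (_ : ∀ i, 0 ≤ c i ∧ c i ≤ 1),
    InHull g fun t => ∏ i, (c i * (1 + t) ^ 2 + (1 - c i) * (1 - t) ^ 2)) ∧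
  ∀ {X : Type} [MeasurableSpace X] {μ : Measure X} [IsProbabilityMeasure μ] (g N : ℕ)
    (a : ℕ → X → ℝ) (_ : ∀ L, Integrable (a L) μ)
    (_ : ∀ x, InHull g fun t => ∑ L ∈ Finset.range (N + 1), a L x * t ^ L),
    InHull g fun t => ∑ L ∈ Finset.range (N + 1), (∫ x, a L x ∂μ) * t ^ L

/-- Row R4 (67): the signature on the antisymmetric elements at a level. -/
def SigStatement : Prop :=
  ∀ {I Λ β : Type} [Fintype I] [DecidableEq I] [DecidableEq Λ] [Fintype β] {lb : β → ℕ}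
    {D : Dat I Λ} {At : (L : ℕ) → Ten I L → Prop} (_ : ASys D At) (S : I → Prop)
    [DecidablePred S] (_ : ∀ i j, D.typ i = D.typ j → (S i ↔ S j))
    (_ : ∀ (L : ℕ) (u : Ten I L), At L u → At L (piT S L u))
    {b : Tup I lb} {H : HMb D b} {m : ℕ} {g : ℕ → Matrix I I ℂ} {k : Matrix I I ℂ}
    (_ : LevData D At m H g k) (L : ℕ) (_ : L ≤ m), ∃ p q : ℕ,
      Sig (fun u => (psiT D u u).re) (AA At S L) p q ∧
      (p : ℂ) - (q : ℂ) =
        ∫ x, LinearMap.trace ℂ (Ten I L) (O.gLin (k * H.mat x) L ∘ₗ piT S L) ∂H.μ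

/-- Row R7a (4): the abstract half law, from `OL.LevStatement` at the level `2 g` and the rows R2,
R3, R3b, R4. -/
def AbsStatement : Prop :=
  ∀ {I Λ : Type} [Fintype I] [DecidableEq I] [DecidableEq Λ] {D : Dat I Λ}
    {At : (L : ℕ) → Ten I L → Prop} (_ : ASys D At) (S : I → Prop)
    [DecidablePred S] (_ : ∀ i j, D.typ i = D.typ j → (S i ↔ S j))
    (_ : ∀ i, S i → D.odd (D.typ i))
    (_ : ∀ (L : ℕ) (u : Ten I L), At L u → At L (piT S L u)) (p q : ℕ → ℕ) (g : ℕ)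
    (_ : Fintype.card {i // S i} = 2 * g)
    (_ : ∀ L, L ≤ 2 * g → Sig (fun u => (psiT D u u).re) (AA At S L) (p L) (q L)),
    InHull g fun t => ∑ L ∈ Finset.range (2 * g + 1), ((p L : ℝ) - q L) * t ^ L

/-- Row R5 (48, 72): comparison of `ψ` on the antisymmetric tensors over `H^1(X)` and on the
cohomology of `X`. -/
def CmpStatement : Prop :=
  ∀ {k : Type u} [Field k] {W : CohomologyData.{u, 0, w} k ℂ} {𝒱 : VarietyClass k} {m : ℕ}
    (H : Host W 𝒱 m) (a : Fin m) (_ : AbelianType W (H.X a) (H.n a))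
    (_ : PositiveDivisor W (H.X a) (H.n a) (H.ξ a)),
    (∀ (l p q : ℕ), Sig (fun z => (H.psiL a z z).re)
      (Submodule.span ℝ (W.alg (H.X a) l : Set (W.coh (H.X a)))) p q →
      Sig (fun u => (psiT H.D u u).re) (AA (fun L u => u ∈ H.At L)
        (fun i => H.D.typ i = (a, 1)) (2 * l)) p q)

/-- Row CNT (93): the number of the letters, and odd lengths; and the projector preserves `At`. -/
def CntStatement : Prop :=
  ∀ {k : Type u} [Field k] {W : CohomologyData.{u, 0, w} k ℂ} {𝒱 : VarietyClass k} {m : ℕ}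
    (H : Host W 𝒱 m) (a : Fin m) (_ : AbelianType W (H.X a) (H.n a))
    (_ : PositiveDivisor W (H.X a) (H.n a) (H.ξ a)),
    (∀ l : ℕ, AA (fun L u => u ∈ H.At L) (fun i => H.D.typ i = (a, 1)) (2 * l + 1) = ⊥) ∧
    (∀ (L : ℕ) (u : Ten H.I L), u ∈ H.At L → piT (fun i => H.D.typ i = (a, 1)) L u ∈ H.At L) ∧
    Fintype.card {i // H.D.typ i = (a, 1)} = 2 * H.n a

/-- Row R6 (3): the signature of `ψ` in codimension `l` is the sum of the signatures of
Grothendieck's forms on the primitive classes of the codimensions `j ≤ min l (e - l)`. -/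
def StrStatement : Prop :=
  ∀ {k : Type u} [Field k] {W : CohomologyData.{u, 0, w} k ℂ} {𝒱 : VarietyClass k}
    (_ : IsWeilCohomology W 𝒱) {Z : Sch k} {e : ℕ} (_ : 𝒱.mem Z e) {η : W.coh Z}
    (_ : η ∈ W.alg Z 1) {Lam : Module.End ℂ (W.coh Z)} (D : LamData W Z e η Lam)
    (p q : ℕ → ℕ) (_ : ∀ j, 2 * j ≤ e → Sig (fun x => (OStr.Gf W Z e η j x x).re)
      (OStr.PrR W Z e η j) (p j) (q j)) (l : ℕ) (_ : l ≤ e),
    Sig (fun z => (psi W Z η Lam D.slm.internal z z).re)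
      (Submodule.span ℝ (W.alg Z l : Set (W.coh Z)))
      (∑ j ∈ Finset.range (min l (e - l) + 1), p j) (∑ j ∈ Finset.range (min l (e - l) + 1), q j)

end HL

end Pool.Agent.Lib.MP_361a6f_ag.FL
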