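import Pool.Agent.Lib.MP_361a6f_ag.FL.B.AbV

/-!
# The half law for abelian varieties: the definitions used in the statement
-/

open CategoryTheory AlgebraicGeometry MonoidalCategory CartesianMonoidalCategory

universe u v w

set_option autoImplicit false

namespace Pool.Agent.Lib.MP_361a6f_ag.FL

open Pool.Agent.Lib.MP_361a6f_ag.H3 Pool.Agent.Lib.MP_361a6f_ag.SQ
  Pool.Agent.Lib.MP_361a6f_ag.PP

/-- The real vector space `U` consists of real linear combinations of algebraic classes of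
codimension `j` on `Y` which are primitive for `ξ`, and `ε` times the form
`(-1)^j Tr(ξ^(n - 2 j) x^2)` of `Q1` is positive definite on `U`. -/
structure Definite {k : Type u} [Field k] (W : CohomologyData.{u, 0, w} k ℂ) (Y : Sch k) (n : ℕ)
    (ξ : W.coh Y) (j : ℕ) (ε : ℂ) (U : Submodule ℝ (W.coh Y)) : Prop where
  real : ∀ x ∈ U, x ∈ Submodule.span ℝ {z | W.IsAlg Y j z}
  prim : ∀ x ∈ U, W.cup (ξ ^ (n - 2 * j + 1)) x = 0
  pos : ∀ x ∈ U, x ≠ 0 →
    ∃ t : ℝ, 0 < t ∧ ε * ((-1) ^ j * W.Tr (W.cup (ξ ^ (n - 2 * j)) (W.cup x x))) = (t : ℂ)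

/-- The signature of the form `(-1)^j Tr(ξ^(n - 2 j) x^2)` of `Q1` on the primitive algebraic
classes of codimension `j` on `Y`: the largest dimension of a space on which it is positive definite
is `p`, and the largest dimension of a space on which it is negative definite is `q`. -/
structure HasSig {k : Type u} [Field k] (W : CohomologyData.{u, 0, w} k ℂ) (Y : Sch k) (n : ℕ)
    (ξ : W.coh Y) (j p q : ℕ) : Prop where
  pos : ∃ U, Definite W Y n ξ j 1 U ∧ Module.finrank ℝ U = p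
  pos_le : ∀ U, Definite W Y n ξ j 1 U → Module.finrank ℝ U ≤ p
  neg : ∃ U, Definite W Y n ξ j (-1) U ∧ Module.finrank ℝ U = q
  neg_le : ∀ U, Definite W Y n ξ j (-1) U → Module.finrank ℝ U ≤ q

/-- **The half law.** For every abelian variety `X` of dimension `g` (a unital law and
`H^0(X) = ℂ` are enough) and every divisor class `ξ` of positive degree, the signatures `(p j, q j)` of Grothendieck's form on the primitive algebraic
classes satisfy
`∑_j (p j - q j) (t^(2j) + t^(2j+2) + ⋯ + t^(2g-2j)) = ∑_i w_i (1 + t)^(2i) (1 - t)^(2g-2i)`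
with `w_i ≥ 0`, `∑ w_i = 1`. -/
def HalfLawStatement : Prop :=
  ∀ {k : Type u} [Field k] (W : CohomologyData.{u, 0, w} k ℂ) (𝒱 : VarietyClass k)
    (_ : IsWeilCohomology W 𝒱) {X : Sch k} {g : ℕ} (_ : 𝒱.mem X g)
    (_ : ∀ x, W.Deg X 0 x → ∃ c : ℂ, x = W.scal c 1) (_ : UnitalLaw X) {ξ : W.coh X}
    (_ : PositiveDivisor W X g ξ),
    ∃ p q : ℕ → ℕ, (∀ j, 2 * j ≤ g → HasSig W X g ξ j (p j) (q j)) ∧
      ∃ w : ℕ → ℝ, (∀ i, 0 ≤ w i) ∧ ∑ i ∈ Finset.range (g + 1), w i = 1 ∧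
        ∀ t : ℝ, ∑ j ∈ Finset.range (g / 2 + 1), ((p j : ℝ) - q j) *
            ∑ r ∈ Finset.range (g - 2 * j + 1), t ^ (2 * (j + r)) =
          ∑ i ∈ Finset.range (g + 1), w i * ((1 + t) ^ (2 * i) * (1 - t) ^ (2 * (g - i)))

end Pool.Agent.Lib.MP_361a6f_ag.FL
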