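import Pool.Agent.Lib.MP_361a6f_ag.FL.HL.Defs
import Pool.Agent.Lib.MP_361a6f_ag.FL.HL.StatH
import Pool.Agent.Lib.MP_361a6f_ag.FL.GB26
import Pool.Agent.Lib.MP_361a6f_ag.FL.GT
import Pool.Agent.Lib.MP_361a6f_ag.FL.AtRow

/-!
# The half law for abelian varieties: assembly
-/

open CategoryTheory AlgebraicGeometry MonoidalCategory CartesianMonoidalCategory

universe u v w

set_option autoImplicit false

namespace Pool.Agent.Lib.MP_361a6f_ag.FL

open Pool.Agent.Lib.MP_361a6f_ag.H3 Pool.Agent.Lib.MP_361a6f_ag.SQ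
  Pool.Agent.Lib.MP_361a6f_ag.PP

namespace HL

/-- the zero space has signature `(0, 0)` -/
theorem sig_bot {E : Type*} [AddCommGroup E] [Module ℝ E] (f : E → ℝ) :
    Sig f (⊥ : Submodule ℝ E) 0 0 where
  pos := ⟨⊥, le_rfl, fun u hu h0 => absurd ((Submodule.mem_bot ℝ).1 hu) h0, finrank_bot ℝ E⟩
  pos_le U hU _ := by rw [le_bot_iff.1 hU, finrank_bot]
  neg := ⟨⊥, le_rfl, fun u hu h0 => absurd ((Submodule.mem_bot ℝ).1 hu) h0, finrank_bot ℝ E⟩
  neg_le U hU _ := by rw [le_bot_iff.1 hU, finrank_bot]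

/-- the signature in codimension `l`, from the primitive signatures -/
def pl (g : ℕ) (p : ℕ → ℕ) (l : ℕ) : ℕ := ∑ j ∈ Finset.range (min l (g - l) + 1), p j

/-- the signature at the length `L` -/
def pL (g : ℕ) (p : ℕ → ℕ) (L : ℕ) : ℕ := if L % 2 = 0 then pl g p (L / 2) else 0

theorem pL_even (g : ℕ) (p : ℕ → ℕ) (l : ℕ) : pL g p (2 * l) = pl g p l := by
  rw [pL, if_pos (by omega), show 2 * l / 2 = l by omega]

theorem pL_odd (g : ℕ) (p : ℕ → ℕ) (l : ℕ) : pL g p (2 * l + 1) = 0 := by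
  rw [pL, if_neg (by omega)]

/-- the half law for one host -/
theorem half_host (hcmp : CmpStatement.{u, w}) (hcnt : CntStatement.{u, w})
    (hstr : StrStatement.{u, w}) (habs : AbsStatement)
    {k : Type u} [Field k] {W : CohomologyData.{u, 0, w} k ℂ} {𝒱 : VarietyClass k}
    (H : Host W 𝒱 1) (hab : AbelianType W (H.X 0) (H.n 0))
    (hξ : PositiveDivisor W (H.X 0) (H.n 0) (H.ξ 0)) (p q : ℕ → ℕ)
    (hpq : ∀ j, 2 * j ≤ H.n 0 → Sig (fun x => (OStr.Gf W (H.X 0) (H.n 0) (H.ξ 0) j x x).re)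
      (OStr.PrR W (H.X 0) (H.n 0) (H.ξ 0) j) (p j) (q j)) :
    InHull (H.n 0) fun t => ∑ L ∈ Finset.range (2 * H.n 0 + 1),
      ((pL (H.n 0) p L : ℝ) - pL (H.n 0) q L) * t ^ L := by
  obtain ⟨h1, h2, h3⟩ := hcnt H 0 hab hξ
  refine habs (aSys_at (at_ H)) (fun i => H.D.typ i = (0, 1)) (fun i j h => by rw [h]) ?_ h2
    (pL (H.n 0) p) (pL (H.n 0) q) (H.n 0) h3 ?_
  · intro i hi
    rw [H.odd_iff, hi]
    exact odd_one
  · intro L hL
    rcases Nat.even_or_odd' L with ⟨l, rfl | rfl⟩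
    · rw [pL_even, pL_even]
      exact hcmp H 0 hab hξ l _ _ (hstr H.hW (H.mem 0) (H.ξ_alg 0) (H.lam 0) p q hpq l (by omega))
    · rw [pL_odd, pL_odd, h1 l]
      exact sig_bot _

end HL

end Pool.Agent.Lib.MP_361a6f_ag.FL
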