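import Pool.Agent.Lib.MP_361a6f_ag.FL.O.Chi
import Pool.Agent.Lib.MP_361a6f_ag.FL.Qps
import Pool.Agent.Lib.MP_361a6f_ag.FL.A.Defs

/-!
# Half law, row R1: the projection to the antisymmetric tensors

`piT S L` is the projection of the tensors of length `L` to the antisymmetric tensors supported on
the words with all letters in `S`.
-/

set_option autoImplicit false
set_option linter.unusedSectionVars false

namespace Pool.Agent.Lib.MP_361a6f_ag.FL.HL

variable {I Λ : Type} [Fintype I] [DecidableEq I] [DecidableEq Λ]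

/-- the projection to the antisymmetric tensors on the words with all letters in `S` -/
noncomputable def piT (S : I → Prop) [DecidablePred S] (L : ℕ) : Ten I L →ₗ[ℂ] Ten I L where
  toFun u := fun w => if ∀ i, S (w i) then
    ((L.factorial : ℂ))⁻¹ * ∑ σ : Equiv.Perm (Fin L), ((Equiv.Perm.sign σ : ℤ) : ℂ) * u (w ∘ σ)
    else 0
  map_add' u v := by
    funext w
    simp only [Pi.add_apply]
    split_ifs
    · rw [← mul_add, ← Finset.sum_add_distrib]
      congr 1
      exact Finset.sum_congr rfl fun σ _ => by ring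
    · rw [add_zero]
  map_smul' c u := by
    funext w
    simp only [Pi.smul_apply, smul_eq_mul, RingHom.id_apply]
    split_ifs
    · simp only [Finset.mul_sum]
      exact Finset.sum_congr rfl fun σ _ => by ring
    · rw [mul_zero]

variable (S : I → Prop) [DecidablePred S]

theorem piT_apply {L : ℕ} (u : Ten I L) (w : Fin L → I) : piT S L u w =
    if ∀ i, S (w i) then
      ((L.factorial : ℂ))⁻¹ * ∑ σ : Equiv.Perm (Fin L), ((Equiv.Perm.sign σ : ℤ) : ℂ) * u (w ∘ σ)
    else 0 := rfl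

/-- supported on the words with all letters in `S` -/
def SupS {L : ℕ} (u : Ten I L) : Prop := ∀ w : Fin L → I, ¬ (∀ i, S (w i)) → u w = 0

theorem piT_sup {L : ℕ} (u : Ten I L) : SupS S (piT S L u) := fun w hw => by
  rw [piT_apply, if_neg hw]

theorem all_perm {L : ℕ} (w : Fin L → I) (σ : Equiv.Perm (Fin L)) :
    (∀ i, S ((w ∘ σ) i)) ↔ ∀ i, S (w i) := by
  constructor
  · intro h i
    have := h (σ⁻¹ i)
    simpa using this
  · intro h i
    exact h (σ i)

theorem sign_sq {L : ℕ} (σ : Equiv.Perm (Fin L)) :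
    ((Equiv.Perm.sign σ : ℤ) : ℂ) * ((Equiv.Perm.sign σ : ℤ) : ℂ) = 1 := by
  rcases Int.units_eq_one_or (Equiv.Perm.sign σ) with e | e <;> rw [e] <;> simp

theorem sign_mul' {L : ℕ} (σ τ : Equiv.Perm (Fin L)) :
    ((Equiv.Perm.sign (σ * τ) : ℤ) : ℂ) =
      ((Equiv.Perm.sign σ : ℤ) : ℂ) * ((Equiv.Perm.sign τ : ℤ) : ℂ) := by
  rw [Equiv.Perm.sign_mul]
  push_cast
  rfl

theorem piT_anti {L : ℕ} (u : Ten I L) : Anti (piT S L u) := by
  intro σ w
  rw [piT_apply, piT_apply]
  by_cases h : ∀ i, S (w i)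
  · rw [if_pos h, if_pos ((all_perm S w σ).2 h)]
    have e : ∑ τ : Equiv.Perm (Fin L), ((Equiv.Perm.sign τ : ℤ) : ℂ) * u ((w ∘ σ) ∘ τ)
        = ((Equiv.Perm.sign σ : ℤ) : ℂ) *
          ∑ τ : Equiv.Perm (Fin L), ((Equiv.Perm.sign τ : ℤ) : ℂ) * u (w ∘ τ) := by
      rw [Finset.mul_sum, ← Equiv.sum_comp (Equiv.mulLeft σ)
        (fun τ => ((Equiv.Perm.sign σ : ℤ) : ℂ) * (((Equiv.Perm.sign τ : ℤ) : ℂ) * u (w ∘ τ)))]
      refine Finset.sum_congr rfl fun τ _ => ?_
      rw [Equiv.coe_mulLeft, sign_mul', ← mul_assoc, ← mul_assoc, sign_sq, one_mul]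
      rfl
    rw [e]
    ring
  · rw [if_neg h, if_neg (fun h' => h ((all_perm S w σ).1 h')), mul_zero]

theorem piT_of {L : ℕ} {u : Ten I L} (h : Anti u) (hS : SupS S u) : piT S L u = u := by
  funext w
  rw [piT_apply]
  split_ifs with h1
  · have e : ∀ σ : Equiv.Perm (Fin L), ((Equiv.Perm.sign σ : ℤ) : ℂ) * u (w ∘ σ) = u w := by
      intro σ
      rw [h σ w, ← mul_assoc, sign_sq, one_mul]
    simp only [e, Finset.sum_const, Finset.card_univ, Fintype.card_perm, Fintype.card_fin,
      nsmul_eq_mul]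
    rw [← mul_assoc, inv_mul_cancel₀ (Nat.cast_ne_zero.2 (Nat.factorial_ne_zero L)), one_mul]
  · exact (hS w h1).symm

theorem piT_idem {L : ℕ} (u : Ten I L) : piT S L (piT S L u) = piT S L u :=
  piT_of S (piT_anti S u) (piT_sup S u)

theorem mem_range_piT {L : ℕ} {u : Ten I L} :
    u ∈ LinearMap.range (piT S L) ↔ Anti u ∧ SupS S u := by
  constructor
  · rintro ⟨v, rfl⟩
    exact ⟨piT_anti S v, piT_sup S v⟩
  · rintro ⟨h1, h2⟩
    exact ⟨u, piT_of S h1 h2⟩

/-- the projection commutes with block matrices -/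
theorem piT_gT {g : Matrix I I ℂ} (hg : ∀ i j, ¬ (S i ↔ S j) → g i j = 0) {L : ℕ} (u : Ten I L) :
    piT S L (gT g u) = gT g (piT S L u) := by
  funext w
  have hg' : ∀ w' : Fin L → I, ¬ ((∀ i, S (w i)) ↔ ∀ i, S (w' i)) → ∏ i, g (w i) (w' i) = 0 := by
    intro w' h
    by_contra h0
    apply h
    have h1 : ∀ i, (S (w i) ↔ S (w' i)) := fun i => by
      by_contra h2
      exact h0 (Finset.prod_eq_zero (Finset.mem_univ i) (hg _ _ h2))
    exact forall_congr' h1
  rw [piT_apply]
  by_cases h : ∀ i, S (w i)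
  · rw [if_pos h]
    have e1 : ∀ σ : Equiv.Perm (Fin L), gT g u (w ∘ σ) =
        ∑ w' : Fin L → I, (∏ i, g (w i) (w' i)) * u (w' ∘ σ) := by
      intro σ
      have h2 : gT g u (w ∘ σ) = ∑ v : Fin L → I, (∏ i, g (w (σ i)) (v i)) * u v := rfl
      rw [h2]
      refine (Fintype.sum_equiv (Equiv.arrowCongr σ.symm (Equiv.refl I)) _ _ fun w' => ?_).symm
      have h3 : (Equiv.arrowCongr σ.symm (Equiv.refl I)) w' = w' ∘ σ := by
        funext i
        simp [Equiv.arrowCongr]
      rw [h3, ← Equiv.prod_comp σ fun i => g (w i) (w' i)]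
      rfl
    simp only [e1]
    unfold gT
    simp only [piT_apply]
    rw [Finset.mul_sum]
    simp only [Finset.mul_sum]
    rw [Finset.sum_comm]
    refine Finset.sum_congr rfl fun w' _ => ?_
    by_cases h' : ∀ i, S (w' i)
    · simp only [if_pos h', Finset.mul_sum]
      refine Finset.sum_congr rfl fun σ _ => ?_
      ring
    · rw [if_neg h', mul_zero]
      refine Finset.sum_eq_zero fun σ _ => ?_
      rw [hg' w' (fun h2 => h' (h2.1 h)), zero_mul, mul_zero, mul_zero]
  · rw [if_neg h]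
    unfold gT
    symm
    refine Finset.sum_eq_zero fun w' _ => ?_
    by_cases h' : ∀ i, S (w' i)
    · rw [hg' w' (fun h2 => h (h2.2 h')), zero_mul]
    · rw [piT_apply, if_neg h', mul_zero]

/-- the projection commutes with the group -/
theorem piT_gT_G {D : Dat I Λ} {g : Matrix I I ℂ} (hg : IsG D g)
    (hS : ∀ i j, D.typ i = D.typ j → (S i ↔ S j)) {L : ℕ} (u : Ten I L) :
    piT S L (gT g u) = gT g (piT S L u) :=
  piT_gT S (fun i j h => hg.1 i j fun h' => h (hS i j h')) u

/-- a rational system that is stable under the restriction to the words on `S` is stable under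
the projection -/
theorem piT_mem {D : Dat I Λ} {At : (L : ℕ) → Ten I L → Prop} (A : ASys D At)
    (hS : ∀ (L : ℕ) (u : Ten I L), At L u → At L fun w => if ∀ i, S (w i) then u w else 0)
    {L : ℕ} {u : Ten I L} (hu : At L u) : At L (piT S L u) := by
  have h1 : ∀ s : Finset (Equiv.Perm (Fin L)),
      At L (∑ σ ∈ s, (((Equiv.Perm.sign σ : ℤ) : ℚ) : ℂ) • permT σ u) := by
    intro s
    induction s using Finset.induction_on with
    | empty => rw [Finset.sum_empty]; exact A.zero L
    | insert σ s hσ ih =>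
      rw [Finset.sum_insert hσ]
      exact A.add L _ _ (A.qsmul L _ _ (A.perm L σ u hu)) ih
  have h2 := hS L _ (A.qsmul L ((L.factorial : ℚ))⁻¹ _ (h1 Finset.univ))
  have h3 : (fun w => if ∀ i, S (w i) then ((((L.factorial : ℚ))⁻¹ : ℚ) : ℂ) •
      (∑ σ, (((Equiv.Perm.sign σ : ℤ) : ℚ) : ℂ) • permT σ u) w else 0) = piT S L u := by
    funext w
    rw [piT_apply]
    split_ifs
    · rw [smul_eq_mul, Finset.sum_apply]
      push_cast
      congr 1
    · rfl
  rw [← h3]
  exact h2

end Pool.Agent.Lib.MP_361a6f_ag.FL.HL
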