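import Pool.Agent.Lib.MP_361a6f_ag.FL.HL.Defs
import Pool.Agent.Lib.MP_361a6f_ag.FL.O.SigAdd
import Pool.Agent.Lib.MP_361a6f_ag.PP.StaB
import Pool.Agent.Lib.MP_361a6f_ag.PP.SL2

/-!
# Half law, row R6: the signature in one codimension (helper94)

The signature of `ψ` on the real span of the algebraic classes of codimension `l` is the sum of
the signatures of Grothendieck's forms on the primitive classes of the codimensions
`j ≤ min l (e - l)`.
-/

open CategoryTheory AlgebraicGeometry MonoidalCategory CartesianMonoidalCategory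
open Module

universe u v w

set_option autoImplicit false
set_option linter.unusedSectionVars false

namespace Pool.Agent.Lib.MP_361a6f_ag.FL

open Pool.Agent.Lib.MP_361a6f_ag.H3 Pool.Agent.Lib.MP_361a6f_ag.SQ
  Pool.Agent.Lib.MP_361a6f_ag.IP2 Pool.Agent.Lib.MP_361a6f_ag.PP

namespace HL

/-! ### Signatures -/

section map

variable {M E : Type*} [AddCommGroup M] [Module ℝ M] [AddCommGroup E] [Module ℝ E]

/-- the dimension is unique -/
theorem Sig.unique {f : E → ℝ} {V : Submodule ℝ E} {p q p' q' : ℕ} (h : Sig f V p q)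
    (h' : Sig f V p' q') : p = p' ∧ q = q' := by
  obtain ⟨U, hU, hU1, hU2⟩ := h.pos
  obtain ⟨U', hU', hU1', hU2'⟩ := h'.pos
  obtain ⟨N, hN, hN1, hN2⟩ := h.neg
  obtain ⟨N', hN', hN1', hN2'⟩ := h'.neg
  have h1 := h'.pos_le U hU hU1
  have h2 := h.pos_le U' hU' hU1'
  have h3 := h'.neg_le N hN hN1
  have h4 := h.neg_le N' hN' hN1'
  omega

/-- transport of subspaces -/
theorem str_fwd (Φ : M →ₗ[ℝ] E) (hinj : Function.Injective Φ) {P : E → Prop} {R : M → Prop}
    (h : ∀ x, P (Φ x) ↔ R x) {V : Submodule ℝ E} (hV : LinearMap.range Φ = V) (U : Submodule ℝ M)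
    (hU : ∀ u ∈ U, u ≠ 0 → R u) :
    U.map Φ ≤ V ∧ (∀ u ∈ U.map Φ, u ≠ 0 → P u) ∧ finrank ℝ (U.map Φ) = finrank ℝ U := by
  refine ⟨?_, ?_, ?_⟩
  · rw [← hV]
    exact LinearMap.map_le_range
  · rintro _ ⟨u, hu, rfl⟩ hne
    exact (h u).2 (hU u hu fun h0 => hne (by rw [h0, map_zero]))
  · exact (Submodule.equivMapOfInjective Φ hinj U).finrank_eq.symm

theorem str_bwd (Φ : M →ₗ[ℝ] E) (hinj : Function.Injective Φ) {P : E → Prop} {R : M → Prop}
    (h : ∀ x, P (Φ x) ↔ R x) {V : Submodule ℝ E} (hV : LinearMap.range Φ = V) (U : Submodule ℝ E)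
    (hUV : U ≤ V) (hU : ∀ u ∈ U, u ≠ 0 → P u) :
    (∀ u ∈ U.comap Φ, u ≠ 0 → R u) ∧ finrank ℝ (U.comap Φ) = finrank ℝ U := by
  refine ⟨?_, ?_⟩
  · intro u hu hne
    exact (h u).1 (hU _ hu fun h0 => hne (hinj (by rw [h0, map_zero])))
  · have h1 := (Submodule.equivMapOfInjective Φ hinj (U.comap Φ)).finrank_eq
    rw [Submodule.map_comap_eq, hV, inf_eq_right.2 hUV] at h1
    exact h1

theorem sig_map_iff (Φ : M →ₗ[ℝ] E) (hinj : Function.Injective Φ) {f : E → ℝ} {g : M → ℝ}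
    (h : ∀ x, f (Φ x) = g x) {V : Submodule ℝ E} (hV : LinearMap.range Φ = V) {p q : ℕ} :
    Sig g ⊤ p q ↔ Sig f V p q := by
  have hp : ∀ x, (fun y => 0 < f y) (Φ x) ↔ (fun y => 0 < g y) x := fun x => by
    show 0 < f (Φ x) ↔ 0 < g x
    rw [h x]
  have hn : ∀ x, (fun y => f y < 0) (Φ x) ↔ (fun y => g y < 0) x := fun x => by
    show f (Φ x) < 0 ↔ g x < 0
    rw [h x]
  constructor
  · rintro ⟨⟨U, -, hU1, hU2⟩, h2, ⟨N, -, hN1, hN2⟩, h4⟩
    refine ⟨⟨U.map Φ, ?_⟩, ?_, ⟨N.map Φ, ?_⟩, ?_⟩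
    · obtain ⟨a, b, c⟩ := str_fwd (P := fun y => 0 < f y) (R := fun y => 0 < g y) Φ hinj hp hV U hU1
      exact ⟨a, b, c.trans hU2⟩
    · intro U' hU' hU1'
      obtain ⟨a, b⟩ := str_bwd (P := fun y => 0 < f y) (R := fun y => 0 < g y) Φ hinj hp hV U' hU' hU1'
      rw [← b]
      exact h2 _ le_top a
    · obtain ⟨a, b, c⟩ := str_fwd (P := fun y => f y < 0) (R := fun y => g y < 0) Φ hinj hn hV N hN1
      exact ⟨a, b, c.trans hN2⟩
    · intro U' hU' hU1'
      obtain ⟨a, b⟩ := str_bwd (P := fun y => f y < 0) (R := fun y => g y < 0) Φ hinj hn hV U' hU' hU1'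
      rw [← b]
      exact h4 _ le_top a
  · rintro ⟨⟨U, hU, hU1, hU2⟩, h2, ⟨N, hN, hN1, hN2⟩, h4⟩
    refine ⟨⟨U.comap Φ, le_top, ?_⟩, ?_, ⟨N.comap Φ, le_top, ?_⟩, ?_⟩
    · obtain ⟨a, b⟩ := str_bwd (P := fun y => 0 < f y) (R := fun y => 0 < g y) Φ hinj hp hV U hU hU1
      exact ⟨a, b.trans hU2⟩
    · intro U' _ hU1'
      obtain ⟨a, b, c⟩ := str_fwd (P := fun y => 0 < f y) (R := fun y => 0 < g y) Φ hinj hp hV U' hU1'
      rw [← c]
      exact h2 _ a b
    · obtain ⟨a, b⟩ := str_bwd (P := fun y => f y < 0) (R := fun y => g y < 0) Φ hinj hn hV N hN hN1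
      exact ⟨a, b.trans hN2⟩
    · intro U' _ hU1'
      obtain ⟨a, b, c⟩ := str_fwd (P := fun y => f y < 0) (R := fun y => g y < 0) Φ hinj hn hV U' hU1'
      rw [← c]
      exact h4 _ a b

/-- the signature numbers of Mathlib -/
theorem sig_qf [FiniteDimensional ℝ M] (Q : QuadraticForm ℝ M) :
    Sig (fun x => Q x) ⊤ (sigPos Q) (sigNeg Q) := by
  obtain ⟨U, hU, hp⟩ := exists_finrank_eq_sigPos_and_posDef Q
  obtain ⟨N, hN, hn⟩ := exists_finrank_eq_sigNeg_and_negDef Q
  refine ⟨⟨U, le_top, fun u hu hne => hp ⟨u, hu⟩ fun h => hne (congrArg Subtype.val h), hU⟩,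
    fun U' _ h => le_sigPos_of_posDef Q fun u hne => h u u.2 fun h0 => hne (Subtype.ext h0),
    ⟨N, le_top, fun u hu hne => ?_, hN⟩, fun U' _ h => ?_⟩
  · have h1 := hn ⟨u, hu⟩ fun h => hne (congrArg Subtype.val h)
    exact neg_pos.1 h1
  · rw [← sigPos_neg]
    exact le_sigPos_of_posDef (-Q) fun u hne => neg_pos.2 (h u u.2 fun h0 => hne (Subtype.ext h0))


/-- the signature of an orthogonal sum -/
theorem sig_pi {ι : Type} [Fintype ι] {V : ι → Type*} [∀ i, AddCommGroup (V i)]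
    [∀ i, Module ℝ (V i)] [∀ i, FiniteDimensional ℝ (V i)] (Q : QuadraticForm ℝ (∀ i, V i))
    (r : ∀ i, QuadraticForm ℝ (V i)) (c : ι → ℝ) (hc : ∀ i, 0 < c i)
    (h : ∀ f, Q f = ∑ i, c i * r i (f i)) (p q : ι → ℕ)
    (hs : ∀ i, Sig (fun x => r i x) ⊤ (p i) (q i)) :
    Sig (fun f => Q f) ⊤ (∑ i, p i) (∑ i, q i) := by
  have h1 := OSig.sigPos_sum (LinearEquiv.refl ℝ (∀ i, V i)) Q r c hc h
  have h2 := OSig.sigNeg_sum (LinearEquiv.refl ℝ (∀ i, V i)) Q r c hc h
  have h3 := sig_qf Q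
  rw [h1, h2, Finset.sum_congr rfl fun i _ => ((sig_qf (r i)).unique (hs i)).1,
    Finset.sum_congr rfl fun i _ => ((sig_qf (r i)).unique (hs i)).2] at h3
  exact h3

end map

/-! ### The strings in codimension `l` -/

open OStr PSI

noncomputable section

/-- the places in codimension `l` -/
def lIdx {e l : ℕ} (hl : l ≤ e) (i : Fin (min l (e - l) + 1)) : Idx e :=
  ⟨⟨i, by have := i.2; omega⟩, ⟨l - i, by have := i.2; change l - (i : ℕ) < e - 2 * (i : ℕ) + 1; omega⟩⟩

theorem lIdx_inj {e l : ℕ} (hl : l ≤ e) : Function.Injective (lIdx hl) := fun a b h => by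
  have h1 := congrArg (fun x : Idx e => (x.1 : ℕ)) h
  exact Fin.ext h1

variable {k : Type u} [Field k] {W : CohomologyData.{u, 0, w} k ℂ} {𝒱 : VarietyClass k}
  (hW : IsWeilCohomology W 𝒱) {Z : Sch k} {e : ℕ} (hZ : 𝒱.mem Z e)
  {η : W.coh Z} (hη : η ∈ W.alg Z 1) {Lam : Module.End ℂ (W.coh Z)}
  (D : LamData W Z e η Lam) (hS : Sl2Statement.{w}) (hT : StaStatement.{w})

include hW hZ hη D hS hT in
/-- the strings meet the codimension `l` in all real algebraic classes -/
theorem range_l {l : ℕ} (hl : l ≤ e) : LinearMap.range (Phi W Z e η (lIdx hl))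
    = Submodule.span ℝ (W.alg Z l : Set (W.coh Z)) := by
  classical
  apply le_antisymm
  · rintro _ ⟨f, rfl⟩
    rw [Phi_apply]
    refine Submodule.sum_mem _ fun j _ => ?_
    have h1 := (f j).2.1
    generalize (f j : W.coh Z) = y at h1
    induction h1 using Submodule.span_induction with
    | mem x hx =>
      refine Submodule.subset_span ?_
      have h2 : ∀ t : ℕ, η ^ t * x ∈ W.alg Z ((j : ℕ) + t) := fun t => by
        induction t with
        | zero => rw [pow_zero, one_mul]; exact hx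
        | succ t ih =>
          rw [pow_succ', mul_assoc]
          have := hW.mul_alg hZ hη ih
          rwa [show 1 + ((j : ℕ) + t) = (j : ℕ) + (t + 1) by omega] at this
      have h3 := h2 (l - j)
      rw [show (j : ℕ) + (l - j) = l by have := j.2; omega] at h3
      exact h3
    | zero => rw [mul_zero]; exact zero_mem _
    | add a b _ _ ha hb => rw [mul_add]; exact add_mem ha hb
    | smul c a _ ha => rw [mul_smul_comm]; exact Submodule.smul_mem _ c ha
  · rw [Submodule.span_le]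
    intro z hz
    by_cases hj : 2 * l ≤ e
    · obtain ⟨f, -, hf, hsum⟩ := dec_low hW hZ hη D hS hj hz
      rw [hsum]
      refine Submodule.sum_mem _ fun r hr => ?_
      rw [Finset.mem_range] at hr
      exact mem_range (lIdx hl) ⟨l - r, by omega⟩ rfl
        (by change l - (l - r) = r; omega) (hf r (by omega))
    set y := star D.slm.internal (Lop W Z η) Lam z with hy
    have hzz : star D.slm.internal (Lop W Z η) Lam y = z := (hT D.slm).2.1 z
    have hyg : y ∈ W.gr Z (2 * (e - l)) := by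
      have := (hT D.slm).1 (2 * l) z (by omega) (hW.alg_gr hZ hz)
      rwa [show 2 * e - 2 * l = 2 * (e - l) by omega] at this
    have hya : y ∈ W.alg Z (e - l) :=
      tot_alg hW hZ (star_tot hW hZ hη D (alg_le_tot hW Z l hz) (hW.alg_gr hZ hz)) hyg
    obtain ⟨f, -, hf, hsum⟩ := dec_low hW hZ hη D hS (j := e - l) (by omega) hya
    rw [← hzz, hsum, map_sum]
    refine Submodule.sum_mem _ fun r hr => ?_
    rw [Finset.mem_range] at hr
    have hf' := hf r (by omega)
    obtain ⟨q, hq, h1⟩ := star_str hW hZ hη D hS hT (j := e - l - r) (by omega) hf'.1 hf'.2 r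
      (by omega)
    rw [h1]
    have h2 : ((-1 : ℂ) ^ (e - l - r) * (q : ℂ)) • (η ^ (e - 2 * (e - l - r) - r) * f r)
        = ((-1 : ℝ) ^ (e - l - r) * (q : ℝ)) • (η ^ (e - 2 * (e - l - r) - r) * f r) := by
      rw [← Complex.coe_smul]
      push_cast
      rfl
    rw [h2]
    refine Submodule.smul_mem _ _ ?_
    exact mem_range (lIdx hl) ⟨e - l - r, by omega⟩ rfl
      (by change l - (e - l - r) = e - 2 * (e - l - r) - r; omega) hf'

/-- the real part of a bilinear form -/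
def reForm {M : Type*} [AddCommGroup M] [Module ℝ M] (B : M → M → ℂ)
    (h1 : ∀ x x' y, B (x + x') y = B x y + B x' y) (h2 : ∀ (c : ℝ) x y, B (c • x) y = c * B x y)
    (h3 : ∀ x y y', B x (y + y') = B x y + B x y')
    (h4 : ∀ (c : ℝ) x y, B x (c • y) = c * B x y) : M →ₗ[ℝ] M →ₗ[ℝ] ℝ :=
  LinearMap.mk₂ ℝ (fun x y => (B x y).re)
    (fun x x' y => by rw [h1, Complex.add_re])
    (fun c x y => by rw [h2, Complex.re_ofReal_mul, smul_eq_mul])
    (fun x y y' => by rw [h3, Complex.add_re])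
    (fun c x y => by rw [h4, Complex.re_ofReal_mul, smul_eq_mul])

/-- Grothendieck's form on the primitive classes -/
def gB (W : CohomologyData.{u, 0, w} k ℂ) (Z : Sch k) (e : ℕ) (η : W.coh Z) (j : ℕ) :
    PrR W Z e η j →ₗ[ℝ] PrR W Z e η j →ₗ[ℝ] ℝ :=
  reForm (fun x y => Gf W Z e η j (x : W.coh Z) (y : W.coh Z))
    (fun x x' y => by simp only [Gf, Submodule.coe_add, add_mul, mul_add, map_add])
    (fun c x y => by
      simp only [Gf, Submodule.coe_smul, smul_mul_assoc, mul_smul_comm]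
      rw [← Complex.coe_smul, map_smul, smul_eq_mul]
      ring)
    (fun x y y' => by simp only [Gf, Submodule.coe_add, mul_add, map_add])
    (fun c x y => by
      simp only [Gf, Submodule.coe_smul, mul_smul_comm]
      rw [← Complex.coe_smul, map_smul, smul_eq_mul]
      ring)

/-- the form `ψ` on the strings -/
def pB (h : DirectSum.IsInternal (W.gr Z)) (Lam : Module.End ℂ (W.coh Z)) (e : ℕ) (η : W.coh Z)
    {ι : Type} [Fintype ι] (b : ι → Idx e) :
    (∀ i, PrR W Z e η (b i).1) →ₗ[ℝ] (∀ i, PrR W Z e η (b i).1) →ₗ[ℝ] ℝ :=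
  reForm (fun x y => psi W Z η Lam h (Phi W Z e η b x) (Phi W Z e η b y))
    (fun x x' y => by rw [map_add, psi, psi, psi, add_mul, map_add])
    (fun c x y => by
      rw [map_smul, psi, psi, ← Complex.coe_smul, smul_mul_assoc, map_smul, smul_eq_mul])
    (fun x y y' => by rw [map_add, psi, psi, psi, map_add, mul_add, map_add])
    (fun c x y => by
      rw [map_smul, psi, psi, ← Complex.coe_smul, map_smul, mul_smul_comm, map_smul,
        smul_eq_mul])

/-- **Row R6.** -/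
theorem str : StrStatement.{u, w} := by
  intro k _ W 𝒱 hW Z e hZ η hη Lam D p q hpq l hl
  have hS : Sl2Statement.{w} := sl2
  have hT : StaStatement.{w} := staB
  have : Module.Finite ℂ (W.coh Z) := hW.graded.finite hZ
  have : FiniteDimensional ℝ (W.coh Z) := FiniteDimensional.complexToReal (W.coh Z)
  obtain ⟨c, hc, h1⟩ := psi_Phi hW hZ hη D hS hT
  have h2 := fun f => h1 (lIdx hl) (lIdx_inj hl) f f
  have h3 : ∀ i : Fin (min l (e - l) + 1), Sig (fun x => OSig.qf (gB W Z e η (lIdx hl i).1) x) ⊤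
      (p (lIdx hl i).1) (q (lIdx hl i).1) := fun i =>
    (sig_map_iff (PrR W Z e η (lIdx hl i).1).subtype (Submodule.injective_subtype _)
      (fun _ => rfl) (Submodule.range_subtype _)).2 (hpq _ (lIdx hl i).le1)
  have h4 := sig_pi (OSig.qf (pB D.slm.internal Lam e η (lIdx hl)))
    (fun i => OSig.qf (gB W Z e η (lIdx hl i).1))
    (fun i => (c (lIdx hl i).1 (lIdx hl i).2 : ℝ)) (fun i => by exact_mod_cast hc _ _)
    (fun f => by
      rw [OSig.qf_apply]
      show (psi W Z η Lam D.slm.internal (Phi W Z e η (lIdx hl) f)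
        (Phi W Z e η (lIdx hl) f)).re = _
      rw [h2, Complex.re_sum]
      refine Finset.sum_congr rfl fun i _ => ?_
      rw [show ((c (lIdx hl i).1 (lIdx hl i).2 : ℚ) : ℂ)
        = ((c (lIdx hl i).1 (lIdx hl i).2 : ℝ) : ℂ) by push_cast; rfl, Complex.re_ofReal_mul]
      rfl) _ _ h3
  have h5 := (sig_map_iff (Phi W Z e η (lIdx hl)) (Phi_inj hW hZ hη D hS (lIdx hl) (lIdx_inj hl))
    (f := fun z => (psi W Z η Lam D.slm.internal z z).re) (fun _ => rfl)
    (range_l hW hZ hη D hS hT hl)).1 h4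
  have h6 : ∀ r : ℕ → ℕ, ∑ i : Fin (min l (e - l) + 1), r (lIdx hl i).1
      = ∑ j ∈ Finset.range (min l (e - l) + 1), r j := fun r =>
    Fin.sum_univ_eq_sum_range r (min l (e - l) + 1)
  rw [h6, h6] at h5
  exact h5

end

end HL

end Pool.Agent.Lib.MP_361a6f_ag.FL
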